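import Pool.Agent.Lib.MP_4e7804_co.N3.Low.Spec

/-!
# n = 3, lower bound: the number of labels
-/

set_option autoImplicit false

namespace Pool.Agent.Lib.MP_4e7804_co.N3.Low

namespace CardN

open Classical in
theorem inner_eq (v : Fin 3 → ℕ) : inner v =
    (Fintype.piFinset fun i => Finset.range (v i)) \ (Fintype.piFinset fun i => Finset.Ico 1 (v i)) := by
  ext t
  simp only [inner, Finset.mem_filter, Fintype.mem_piFinset, Finset.mem_range, Finset.mem_sdiff,
    Finset.mem_Ico]
  constructor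
  · rintro ⟨h1, i, hi⟩
    refine ⟨h1, fun h => ?_⟩
    have := (h i).1
    omega
  · rintro ⟨h1, h2⟩
    refine ⟨h1, ?_⟩
    by_contra hc
    push Not at hc
    exact h2 fun i => ⟨by have := hc i; omega, h1 i⟩

open Classical in
theorem card_inner (v : Fin 3 → ℕ) : (inner v).card =
    v 0 * v 1 * v 2 - (v 0 - 1) * (v 1 - 1) * (v 2 - 1) := by
  rw [inner_eq, Finset.card_sdiff_of_subset]
  · rw [Fintype.card_piFinset, Fintype.card_piFinset]
    simp [Fin.prod_univ_three]
  · intro t ht
    rw [Fintype.mem_piFinset] at ht ⊢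
    intro i
    have := Finset.mem_Ico.1 (ht i)
    exact Finset.mem_range.2 this.2

open Classical in
theorem card_side (v : Fin 3 → ℕ) : (side v).card =
    (if v 1 ≠ 1 ∧ v 2 ≠ 1 then v 0 else 0) + (if v 2 ≠ 1 ∧ v 0 ≠ 1 then v 1 else 0) +
      (if v 0 ≠ 1 ∧ v 1 ≠ 1 then v 2 else 0) := by
  have key : ∀ (l : Fin 3) (P : Prop), v l ≤ v 0 + v 1 + v 2 →
      ((Finset.range (v 0 + v 1 + v 2)).filter (fun m => m < v l ∧ P)).card =
        if P then v l else 0 := by
    intro l P hl
    by_cases hP : P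
    · rw [if_pos hP]
      have : (Finset.range (v 0 + v 1 + v 2)).filter (fun m => m < v l ∧ P) =
          Finset.range (v l) := by
        ext m
        simp only [Finset.mem_filter, Finset.mem_range]
        constructor
        · rintro ⟨_, h, _⟩; exact h
        · intro h; exact ⟨by omega, h, hP⟩
      rw [this, Finset.card_range]
    · rw [if_neg hP, Finset.card_eq_zero, Finset.filter_eq_empty_iff]
      rintro m _ ⟨_, h⟩
      exact hP h
  unfold side
  rw [Finset.card_filter, Finset.sum_product, Fin.sum_univ_three]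
  simp only [← Finset.card_filter]
  have e0 : ((0 : Fin 3) + 1) = 1 := rfl
  have e1 : ((0 : Fin 3) + 2) = 2 := rfl
  have e2 : ((1 : Fin 3) + 1) = 2 := rfl
  have e3 : ((1 : Fin 3) + 2) = 0 := rfl
  have e4 : ((2 : Fin 3) + 1) = 0 := rfl
  have e5 : ((2 : Fin 3) + 2) = 1 := rfl
  rw [e0, e1, e2, e3, e4, e5]
  congr 1
  · congr 1
    · convert key 0 (v 1 ≠ 1 ∧ v 2 ≠ 1) (by omega) using 1
      · congr
      · congr
    · convert key 1 (v 2 ≠ 1 ∧ v 0 ≠ 1) (by omega) using 1
      · congr
      · congr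
  · convert key 2 (v 0 ≠ 1 ∧ v 1 ≠ 1) (by omega) using 1
    · congr
    · congr

end CardN

open CardN in
theorem tCard : StmtCard := by
  intro v hv
  have h0 := hv 0
  have h1 := hv 1
  have h2 := hv 2
  unfold labels
  rw [Finset.card_insertNone, Finset.card_disjSum, card_inner, card_side]
  unfold VV
  obtain ⟨a, ha⟩ : ∃ a, v 0 = a + 1 := ⟨v 0 - 1, by omega⟩
  obtain ⟨b, hb⟩ : ∃ b, v 1 = b + 1 := ⟨v 1 - 1, by omega⟩
  obtain ⟨c, hc⟩ : ∃ c, v 2 = c + 1 := ⟨v 2 - 1, by omega⟩
  rw [ha, hb, hc]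
  simp only [Nat.add_sub_cancel]
  have e : (a + 1) * (b + 1) * (c + 1) - a * b * c =
      a * b + a * c + b * c + a + b + c + 1 := by
    have : (a + 1) * (b + 1) * (c + 1) = a * b * c + (a * b + a * c + b * c + a + b + c + 1) := by
      ring
    omega
  rw [e]
  by_cases h1 : a = 0
  · by_cases h2 : b = 0
    · by_cases h3 : c = 0
      · simp [h1, h2, h3]
      · simp [h1, h2, h3]
    · by_cases h3 : c = 0
      · simp [h1, h2, h3]
      · simp [h1, h2, h3]; ring
  · by_cases h2 : b = 0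
    · by_cases h3 : c = 0
      · simp [h1, h2, h3]
      · simp [h1, h2, h3]; ring
    · by_cases h3 : c = 0
      · simp [h1, h2, h3]; ring
      · simp [h1, h2, h3]; ring

end Pool.Agent.Lib.MP_4e7804_co.N3.Low
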