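import Pool.Agent.Lib.MP_4e7804_co.N3.Low.Spec

/-!
# n = 3, lower bound: the labels are separated
-/

set_option autoImplicit false

namespace Pool.Agent.Lib.MP_4e7804_co.N3.Low.DistN

open Pool.Agent.Lib.MP_4e7804_co.N3 Pool.Agent.Lib.MP_4e7804_co.N3.Low

private theorem mem_inner {v t : Fin 3 → ℕ} (h : some (Sum.inl t) ∈ labels v) : ∀ i, t i < v i := by
  classical
  have h1 : t ∈ inner v := by
    have := h
    simpa [labels, Finset.mem_insertNone] using this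
  rw [inner, Finset.mem_filter, Fintype.mem_piFinset] at h1
  exact fun i => Finset.mem_range.1 (h1.1 i)

private theorem mem_side {v : Fin 3 → ℕ} {x : Fin 3 × ℕ} (h : some (Sum.inr x) ∈ labels v) :
    x.2 < v x.1 ∧ v (x.1 + 1) ≠ 1 ∧ v (x.1 + 2) ≠ 1 := by
  classical
  have h1 : x ∈ side v := by
    have := h
    simpa [labels, Finset.mem_insertNone] using this
  rw [side, Finset.mem_filter] at h1
  exact h1.2

private theorem tt_lt {v : Fin 3 → ℕ} (hv : ∀ i, v i ≠ 0) {l : Fin 3} {m : ℕ} (hm : m < v l)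
    (i : Fin 3) : tt v l m i < v i := by
  have := Nat.pos_of_ne_zero (hv i)
  unfold tt
  split_ifs with h1 h2
  · rw [h1]
    exact hm
  · omega
  · exact this

private theorem fin3a : ∀ l : Fin 3, l + 2 ≠ l ∧ l + 2 ≠ l + 1 ∧ l + 2 = l + 1 + 1 := by decide

private theorem fin3b : ∀ l l' : Fin 3, l' = l ∨ l' = l + 1 ∨ l = l' + 1 := by decide

private theorem tt_inj {v : Fin 3 → ℕ} (hv : ∀ i, v i ≠ 0) {x y : Fin 3 × ℕ}
    (hx : v (x.1 + 1) ≠ 1 ∧ v (x.1 + 2) ≠ 1) (hy : v (y.1 + 1) ≠ 1 ∧ v (y.1 + 2) ≠ 1)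
    (h : tt v x.1 x.2 = tt v y.1 y.2) : x = y := by
  obtain ⟨l, m⟩ := x
  obtain ⟨l', m'⟩ := y
  simp only at hx hy h
  have key : ∀ (l : Fin 3) (m m' : ℕ), v (l + 2) ≠ 1 → tt v l m ≠ tt v (l + 1) m' := by
    intro l m m' h1 h2
    have h3 := congrFun h2 (l + 2)
    have h4 : tt v l m (l + 2) = 0 := by
      unfold tt
      rw [if_neg (fin3a l).1, if_neg (fin3a l).2.1]
    have h5 : tt v (l + 1) m' (l + 2) = v (l + 2) - 1 := by
      unfold tt
      rw [if_neg (fin3a l).2.1, if_pos (fin3a l).2.2]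
    rw [h4, h5] at h3
    have := hv (l + 2)
    omega
  rcases fin3b l l' with rfl | rfl | rfl
  · have := congrFun h l'
    simp only [tt, if_true] at this
    rw [this]
  · exact absurd h (key l m m' hx.2)
  · exact absurd h.symm (key l' m' m hy.2)

private theorem main (hS : StmtSep) (hF : StmtFam) (v : Fin 3 → ℕ) (hv : ∀ i, v i ≠ 0) (N : ℤ)
    (hH : ∀ i, Hm (AA v N) i) (C : Set Sp) (hC : Convex ℝ C) (hd : Disjoint C (Gam (AA v N)))
    (z z' : Sp) (hz : z ∈ C) (hz' : z' ∈ C) (T T' : Fin 3 → ℕ) (hT : ∀ i, T i < v i)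
    (hT' : ∀ i, T' i < v i) (h : ∀ i, Abv (AA v N) i (toPl (pnt N i (T i))) z)
    (h' : ∀ i, Abv (AA v N) i (toPl (pnt N i (T' i))) z') : T = T' := by
  obtain ⟨_, f2, f3, f4, _⟩ := hF
  have hne : ∀ i, (AA v N i).Nonempty := fun i => by
    rw [← Finset.card_pos, (f3 v N i).2]
    exact Nat.pos_of_ne_zero (hv i)
  obtain ⟨_, s2, _⟩ := hS (AA v N) hne C hC hd z hz z' hz'
  funext i
  have h1 := s2 i (hH i) _ ((f4 v N i _).2 ⟨T i, hT i, rfl⟩) _ ((f4 v N i _).2 ⟨T' i, hT' i, rfl⟩)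
    (h i) (h' i)
  exact f2 N i (toPl.injective h1)

private theorem below (hS : StmtSep) (hF : StmtFam) (v : Fin 3 → ℕ) (hv : ∀ i, v i ≠ 0) (N : ℤ)
    (hH : ∀ i, Hm (AA v N) i) (C : Set Sp) (hC : Convex ℝ C) (hd : Disjoint C (Gam (AA v N)))
    (z z' : Sp) (hz : z ∈ C) (hz' : z' ∈ C) (T : Fin 3 → ℕ) (hT : ∀ i, T i < v i)
    (h : ∀ i, Abv (AA v N) i (toPl (pnt N i (T i))) z) (h' : Blw (AA v N) 0 z') : False := by
  obtain ⟨_, _, f3, f4, _⟩ := hF
  have hne : ∀ i, (AA v N i).Nonempty := fun i => by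
    rw [← Finset.card_pos, (f3 v N i).2]
    exact Nat.pos_of_ne_zero (hv i)
  obtain ⟨s1, _, _⟩ := hS (AA v N) hne C hC hd z hz z' hz'
  exact s1 0 (hH 0) _ ((f4 v N 0 _).2 ⟨T 0, hT 0, rfl⟩) (h 0) h'

private theorem oneSide (hS : StmtSep) (hF : StmtFam) (v : Fin 3 → ℕ) (hv : ∀ i, v i ≠ 0) (N : ℤ)
    (C : Set Sp) (hC : Convex ℝ C) (hd : Disjoint C (Gam (AA v N)))
    (z z' : Sp) (hz : z ∈ C) (hz' : z' ∈ C) (l : Fin 3) (h1 : v (l + 1) ≠ 1) (h2 : v (l + 2) ≠ 1)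
    (h : ∀ i, 0 < z i) (h' : z' l < 0 ∧ 0 < z' (l + 1) ∧ 0 < z' (l + 2)) : False := by
  obtain ⟨_, _, f3, _⟩ := hF
  have hne : ∀ i, (AA v N i).Nonempty := fun i => by
    rw [← Finset.card_pos, (f3 v N i).2]
    exact Nat.pos_of_ne_zero (hv i)
  obtain ⟨_, _, s3⟩ := hS (AA v N) hne C hC hd z hz z' hz'
  exact s3 l (by rw [(f3 v N _).2]; exact h1) (by rw [(f3 v N _).2]; exact h2) h h'.1 h'.2.1 h'.2.2

/-- **Dist** -/
theorem _root_.Pool.Agent.Lib.MP_4e7804_co.N3.Low.tDist (h1 : StmtSep) (h2 : StmtFam) :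
    StmtDist := by
  intro v hv N hH C hC hd x hx y hy hxy hzx hzy
  obtain ⟨z, hz, hzU⟩ := hzx
  obtain ⟨z', hz', hzU'⟩ := hzy
  match x, y with
  | none, none => exact hxy rfl
  | none, some (Sum.inl t) =>
    exact below h1 h2 v hv N hH C hC hd z' z hz' hz t (mem_inner hy) hzU'.1 hzU
  | none, some (Sum.inr s) =>
    exact below h1 h2 v hv N hH C hC hd z' z hz' hz _ (tt_lt hv (mem_side hy).1) hzU'.1 hzU
  | some (Sum.inl t), none =>
    exact below h1 h2 v hv N hH C hC hd z z' hz hz' t (mem_inner hx) hzU.1 hzU'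
  | some (Sum.inr s), none =>
    exact below h1 h2 v hv N hH C hC hd z z' hz hz' _ (tt_lt hv (mem_side hx).1) hzU.1 hzU'
  | some (Sum.inl t), some (Sum.inl t') =>
    have := main h1 h2 v hv N hH C hC hd z z' hz hz' t t' (mem_inner hx) (mem_inner hy) hzU.1 hzU'.1
    exact hxy (by rw [this])
  | some (Sum.inl t), some (Sum.inr s) =>
    exact oneSide h1 h2 v hv N C hC hd z z' hz hz' s.1 (mem_side hy).2.1 (mem_side hy).2.2 hzU.2
      hzU'.2
  | some (Sum.inr s), some (Sum.inl t) =>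
    exact oneSide h1 h2 v hv N C hC hd z' z hz' hz s.1 (mem_side hx).2.1 (mem_side hx).2.2 hzU'.2
      hzU.2
  | some (Sum.inr s), some (Sum.inr s') =>
    have := main h1 h2 v hv N hH C hC hd z z' hz hz' _ _ (tt_lt hv (mem_side hx).1)
      (tt_lt hv (mem_side hy).1) hzU.1 hzU'.1
    exact hxy (by rw [tt_inj hv (mem_side hx).2 (mem_side hy).2 this])

end Pool.Agent.Lib.MP_4e7804_co.N3.Low.DistN
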