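import Pool.Agent.Lib.MP_4e7804_co.N3.Low.Spec

/-!
# n = 3, lower bound: the family in coordinates
-/

set_option autoImplicit false

namespace Pool.Agent.Lib.MP_4e7804_co.N3.Low

namespace FamN

theorem dt_toPl (p : ℤ × ℤ) (w : Pl) : dt (toPl p) w = (p.1 : ℝ) * w.1 + (p.2 : ℝ) * w.2 := rfl

theorem dt_pnt (N : ℤ) (i : Fin 3) (k : ℕ) (w : Pl) :
    dt (toPl (pnt N i k)) w = N * xx w i + phi i k (xx w) := by
  rw [dt_toPl]
  fin_cases i <;>
    · simp [pnt, cc, xx, phi]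
      try ring

theorem pnt_inj (N : ℤ) (i : Fin 3) : Function.Injective (pnt N i) := by
  intro k l h
  have h1 : (pnt N i k).1 = (pnt N i l).1 := by rw [h]
  have h2 : (pnt N i k).2 = (pnt N i l).2 := by rw [h]
  fin_cases i
  · simp [pnt, cc] at h1 h2
    have h3 : (k : ℤ) = l := by linarith
    exact_mod_cast h3
  · simp [pnt, cc] at h1 h2
    have h3 : (k : ℤ) = l := by linarith
    exact_mod_cast h3
  · simp [pnt, cc] at h1 h2
    have h3 : (k : ℤ) = l := by linarith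
    exact_mod_cast h3

theorem mem_AA (v : Fin 3 → ℕ) (N : ℤ) (i : Fin 3) (p : Pl) : p ∈ AA v N i ↔
    ∃ k, k < v i ∧ toPl (pnt N i k) = p := by
  simp only [AA, im, Vf, Finset.mem_map, Finset.mem_image, Finset.mem_range]
  constructor
  · rintro ⟨q, ⟨k, hk, rfl⟩, rfl⟩
    exact ⟨k, hk, rfl⟩
  · rintro ⟨k, hk, rfl⟩
    exact ⟨_, ⟨k, hk, rfl⟩, rfl⟩

theorem psi_AA_le (v : Fin 3 → ℕ) (N N' : ℤ) (i : Fin 3) (w : Pl) (hv : v i ≠ 0) :
    psi (AA v N i) w ≤ (N - N') * xx w i + psi (AA v N' i) w := by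
  have hne : (AA v N' i).Nonempty :=
    ⟨_, (mem_AA v N' i _).2 ⟨0, Nat.pos_of_ne_zero hv, rfl⟩⟩
  obtain ⟨p, hp, hpw⟩ := exists_psi hne w
  obtain ⟨k, hk, rfl⟩ := (mem_AA v N' i p).1 hp
  have h1 := psi_le ((mem_AA v N i _).2 ⟨k, hk, rfl⟩) w
  rw [dt_pnt] at h1 hpw
  rw [hpw]
  linarith

end FamN

open FamN

theorem tFam : StmtFam := by
  refine ⟨dt_pnt, pnt_inj, ?_, mem_AA, ?_, ?_⟩
  · intro v N i
    have h : (Vf v N i).card = v i := by
      rw [Vf, Finset.card_image_of_injective _ (pnt_inj N i), Finset.card_range]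
    refine ⟨h, ?_⟩
    rw [AA, im, Finset.card_map, h]
  · intro v N i w hv
    have h1 := psi_AA_le v N 0 i w hv
    have h2 := psi_AA_le v 0 N i w hv
    rw [Int.cast_zero] at h1 h2
    linarith
  · intro v N i w k
    constructor
    · intro h l hl hlk
      have h1 := h (toPl (pnt N i l)) ((mem_AA v N i _).2 ⟨l, hl, rfl⟩)
        (fun h2 => hlk (pnt_inj N i (toPl.injective h2)))
      rw [dt_pnt, dt_pnt] at h1
      linarith
    · intro h q hq hqk
      obtain ⟨l, hl, rfl⟩ := (mem_AA v N i q).1 hq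
      have h1 := h l hl (fun h2 => hqk (by rw [h2]))
      rw [dt_pnt, dt_pnt]
      linarith

end Pool.Agent.Lib.MP_4e7804_co.N3.Low
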