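import Pool.Agent.Lib.MP_4e7804_co.N3.Low.Spec

/-!
# n = 3, lower bound: a large multiple of a linear isomorphism plus a Lipschitz map
-/

set_option autoImplicit false

open Filter Topology
open scoped NNReal

namespace Pool.Agent.Lib.MP_4e7804_co.N3.Low.HomeoN

theorem norm_symm_pos (L : Pl ≃L[ℝ] Pl) : 0 < ‖(L.symm : Pl →L[ℝ] Pl)‖ := by
  rw [norm_pos_iff]
  intro h
  have h1 : (L.symm : Pl →L[ℝ] Pl) ((1 : ℝ), (0 : ℝ)) = 0 := by rw [h]; simp
  have h2 : L.symm ((1 : ℝ), (0 : ℝ)) = 0 := h1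
  rw [ContinuousLinearEquiv.map_eq_zero_iff] at h2
  have h3 := congrArg Prod.fst h2
  simp at h3

theorem approx {L : Pl ≃L[ℝ] Pl} {G : Pl → Pl} {K : ℝ≥0} (hG : LipschitzWith K G) (N : ℕ) :
    ApproximatesLinearOn (fun w => L w + (N : ℝ)⁻¹ • G w) (L : Pl →L[ℝ] Pl) Set.univ
      (K * (N : ℝ≥0)⁻¹) := by
  intro x _ y _
  have h1 : L x + (N : ℝ)⁻¹ • G x - (L y + (N : ℝ)⁻¹ • G y) - (L : Pl →L[ℝ] Pl) (x - y) =
      (N : ℝ)⁻¹ • (G x - G y) := by
    rw [map_sub, smul_sub]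
    simp only [ContinuousLinearEquiv.coe_coe]
    abel
  have h2 := hG.dist_le_mul x y
  rw [dist_eq_norm, dist_eq_norm] at h2
  rw [h1, norm_smul, norm_inv, RCLike.norm_natCast]
  push_cast
  calc (N : ℝ)⁻¹ * ‖G x - G y‖ ≤ (N : ℝ)⁻¹ * (K * ‖x - y‖) :=
        mul_le_mul_of_nonneg_left h2 (by positivity)
    _ = K * (N : ℝ)⁻¹ * ‖x - y‖ := by ring

end Pool.Agent.Lib.MP_4e7804_co.N3.Low.HomeoN

open Pool.Agent.Lib.MP_4e7804_co.N3 Pool.Agent.Lib.MP_4e7804_co.N3.Low in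
/-- a large multiple of a linear isomorphism plus a Lipschitz map -/
theorem Pool.Agent.Lib.MP_4e7804_co.N3.Low.tHomeo : StmtHomeo := by
  intro L G K hG hG0
  have hC := HomeoN.norm_symm_pos L
  set C : ℝ := ‖(L.symm : Pl →L[ℝ] Pl)‖ with hCd
  constructor
  · filter_upwards [tendsto_natCast_atTop_atTop.eventually_gt_atTop ((K : ℝ) * C)] with N hN
    have hN0 : (0 : ℝ) < N := lt_of_le_of_lt (by positivity) hN
    have hc : Subsingleton Pl ∨ (K * (N : ℝ≥0)⁻¹) < ‖(L.symm : Pl →L[ℝ] Pl)‖₊⁻¹ := by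
      right
      rw [← NNReal.coe_lt_coe]
      push_cast
      rw [← hCd, ← div_eq_mul_inv, ← one_div, div_lt_div_iff₀ hN0 hC]
      linarith
    refine ⟨((HomeoN.approx hG N).toHomeomorph _ hc).trans (Homeomorph.smulOfNeZero (N : ℝ) hN0.ne'),
      fun w => ?_⟩
    change (N : ℝ) • (L w + (N : ℝ)⁻¹ • G w) = _
    rw [smul_add, smul_smul, mul_inv_cancel₀ hN0.ne', one_smul]
  · intro y w hw
    rw [tendsto_iff_norm_sub_tendsto_zero]
    have h0 : Tendsto (fun N : ℕ => (2 * C * K * ‖L.symm y‖) / (N : ℝ)) atTop (𝓝 0) :=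
      tendsto_const_div_atTop_nhds_zero_nat _
    refine squeeze_zero' (Eventually.of_forall fun N => norm_nonneg _) ?_ h0
    filter_upwards [hw, tendsto_natCast_atTop_atTop.eventually_ge_atTop (2 * C * K),
      eventually_gt_atTop 0] with N h1 h2 h3
    have hN : (0 : ℝ) < N := by exact_mod_cast h3
    have h4 : w N - L.symm y = -((N : ℝ)⁻¹ • L.symm (G (w N))) := by
      have h5 : L (w N) = y - (N : ℝ)⁻¹ • G (w N) := by
        have h6 : (N : ℝ) • L (w N) = (N : ℝ) • (y - (N : ℝ)⁻¹ • G (w N)) := by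
          rw [smul_sub, smul_smul, mul_inv_cancel₀ hN.ne', one_smul, ← h1]
          abel
        exact smul_right_injective _ hN.ne' h6
      have h7 : w N = L.symm (y - (N : ℝ)⁻¹ • G (w N)) := by
        rw [← h5, ContinuousLinearEquiv.symm_apply_apply]
      rw [map_sub, map_smul] at h7
      calc w N - L.symm y = (L.symm y - (N : ℝ)⁻¹ • L.symm (G (w N))) - L.symm y := by rw [← h7]
        _ = _ := by abel
    have hGw : ‖G (w N)‖ ≤ K * ‖w N‖ := by
      have := hG.dist_le_mul (w N) 0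
      rwa [dist_eq_norm, dist_eq_norm, hG0, sub_zero, sub_zero] at this
    have hLs : ‖L.symm (G (w N))‖ ≤ C * (K * ‖w N‖) :=
      ((L.symm : Pl →L[ℝ] Pl).le_opNorm (G (w N))).trans (mul_le_mul_of_nonneg_left hGw hC.le)
    have h8 : ‖w N - L.symm y‖ ≤ (N : ℝ)⁻¹ * (C * (K * ‖w N‖)) := by
      rw [h4, norm_neg, norm_smul, norm_inv, RCLike.norm_natCast]
      exact mul_le_mul_of_nonneg_left hLs (by positivity)
    have h9 : (N : ℝ)⁻¹ * (C * (K * ‖w N‖)) ≤ ‖w N‖ / 2 := by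
      rw [inv_mul_le_iff₀ hN]
      nlinarith [norm_nonneg (w N)]
    have h10 : ‖w N‖ ≤ 2 * ‖L.symm y‖ := by
      have := norm_sub_norm_le (w N) (L.symm y)
      linarith
    calc ‖w N - L.symm y‖ ≤ (N : ℝ)⁻¹ * (C * (K * ‖w N‖)) := h8
      _ ≤ (N : ℝ)⁻¹ * (C * (K * (2 * ‖L.symm y‖))) := by gcongr
      _ = 2 * C * K * ‖L.symm y‖ / N := by ring
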