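import Pool.Agent.Lib.MP_4e7804_co.N3.Low.Spec

/-!
# n = 3, lower bound: types for large `N`
-/

set_option autoImplicit false

open Filter Topology
open scoped NNReal

namespace Pool.Agent.Lib.MP_4e7804_co.N3.Low

namespace LimN

theorem exL (i : Fin 3) : ∃ L : Pl ≃L[ℝ] Pl, (∀ w, L w = (xx w (i + 1), xx w (i + 2))) := by
  fin_cases i
  · let e : Pl ≃ₗ[ℝ] Pl :=
      { toFun := fun w => (w.2, -w.1 - w.2)
        invFun := fun u => (-u.1 - u.2, u.1)
        map_add' := by
          intro x y
          simp only [Prod.fst_add, Prod.snd_add, Prod.mk_add_mk, Prod.mk.injEq, true_and]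
          ring
        map_smul' := by
          intro c x
          simp only [Prod.smul_fst, Prod.smul_snd, smul_eq_mul, RingHom.id_apply, Prod.smul_mk,
            Prod.mk.injEq, true_and]
          ring
        left_inv := by
          intro x
          refine Prod.ext ?_ ?_
          · simp only
            ring
          · simp only
            try ring
        right_inv := by
          intro x
          refine Prod.ext ?_ ?_
          · simp only
            try ring
          · simp only
            try ring }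
    exact ⟨e.toContinuousLinearEquiv, fun w => rfl⟩
  · let e : Pl ≃ₗ[ℝ] Pl :=
      { toFun := fun w => (-w.1 - w.2, w.1)
        invFun := fun u => (u.2, -u.1 - u.2)
        map_add' := by
          intro x y
          simp only [Prod.fst_add, Prod.snd_add, Prod.mk_add_mk, Prod.mk.injEq, and_true]
          ring
        map_smul' := by
          intro c x
          simp only [Prod.smul_fst, Prod.smul_snd, smul_eq_mul, RingHom.id_apply, Prod.smul_mk,
            Prod.mk.injEq, and_true]
          ring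
        left_inv := by
          intro x
          refine Prod.ext ?_ ?_
          · simp only
            try ring
          · simp only
            try ring
        right_inv := by
          intro x
          refine Prod.ext ?_ ?_
          · simp only
            try ring
          · simp only
            try ring }
    exact ⟨e.toContinuousLinearEquiv, fun w => rfl⟩
  · exact ⟨ContinuousLinearEquiv.refl ℝ Pl, fun w => rfl⟩

theorem xx_sum (w : Pl) (i : Fin 3) : xx w i = - xx w (i + 1) - xx w (i + 2) := by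
  fin_cases i
  · show w.1 = - w.2 - (-w.1 - w.2)
    ring
  · show w.2 = - (-w.1 - w.2) - w.1
    ring
  · show -w.1 - w.2 = -w.1 - w.2
    rfl

theorem z_sum (z : Sp) (i : Fin 3) : z 0 + z 1 + z 2 = z i + z (i + 1) + z (i + 2) := by
  fin_cases i
  · rfl
  · show z 0 + z 1 + z 2 = z 1 + z 2 + z 0
    ring
  · show z 0 + z 1 + z 2 = z 2 + z 0 + z 1
    ring

theorem xx_cont (i : Fin 3) : Continuous fun w : Pl => xx w i := by
  fin_cases i
  · exact continuous_fst
  · exact continuous_snd
  · exact (continuous_fst.neg).sub continuous_snd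

theorem phi_congr {i : Fin 3} {k : ℕ} {z z' : Sp} (h1 : z (i + 1) = z' (i + 1))
    (h2 : z (i + 2) = z' (i + 2)) : phi i k z = phi i k z' := by
  simp only [phi, h1, h2]

theorem phi_cont (i : Fin 3) (k : ℕ) : Continuous fun w : Pl => phi i k (xx w) := by
  have h1 := xx_cont (i + 1)
  have h2 := xx_cont (i + 2)
  simp only [phi]
  fun_prop

end LimN

open LimN

theorem tLim (hH : StmtHomeo) (hL : StmtLip) (hF : StmtFam) : StmtLim := by
  intro v hv i
  obtain ⟨-, -, hc, -, hpsi, hNC⟩ := hF
  have hne : ∀ j, (AA v 0 j).Nonempty := by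
    intro j
    rw [← Finset.card_pos, (hc v 0 j).2]
    exact Nat.pos_of_ne_zero (hv j)
  obtain ⟨L, hLw⟩ := exL i
  obtain ⟨K1, hK1⟩ := hL _ (hne (i + 1))
  obtain ⟨K2, hK2⟩ := hL _ (hne (i + 2))
  obtain ⟨G, hG⟩ : ∃ G : Pl → Pl, G = fun w => (psi (AA v 0 (i + 1)) w, psi (AA v 0 (i + 2)) w) :=
    ⟨_, rfl⟩
  have hGL : LipschitzWith (max K1 K2) G := by
    rw [hG]
    exact hK1.prodMk hK2
  have hG0 : G 0 = 0 := by
    rw [hG]
    simp only [psi_zero (hne _)]
    rfl
  obtain ⟨hhom, hconv⟩ := hH L G _ hGL hG0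
  have hval : ∀ (N : ℕ) (w : Pl), (N : ℝ) • L w + G w =
      (psi (AA v N (i + 1)) w, psi (AA v N (i + 2)) w) := by
    intro N w
    rw [hLw, hG, hpsi v N (i + 1) w (hv _), hpsi v N (i + 2) w (hv _)]
    simp
  -- the preimages
  have key : ∀ z : Sp, ∃ w : ℕ → Pl,
      (∀ᶠ N : ℕ in atTop, psi (AA v N (i + 1)) (w N) = ((N : ℝ) • z) (i + 1) ∧
        psi (AA v N (i + 2)) (w N) = ((N : ℝ) • z) (i + 2)) ∧
      ∃ w₀ : Pl, Tendsto w atTop (𝓝 w₀) ∧ xx w₀ (i + 1) = z (i + 1) ∧ xx w₀ (i + 2) = z (i + 2) ∧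
        xx w₀ i = - z (i + 1) - z (i + 2) := by
    intro z
    have h1 : ∀ᶠ N : ℕ in atTop, ∃ w, (N : ℝ) • L w + G w = (N : ℝ) • (z (i + 1), z (i + 2)) := by
      filter_upwards [hhom] with N hN
      obtain ⟨H, hH'⟩ := hN
      exact ⟨H.symm ((N : ℝ) • (z (i + 1), z (i + 2))), by rw [← hH', Homeomorph.apply_symm_apply]⟩
    classical
    obtain ⟨w, hw⟩ : ∃ w : ℕ → Pl, ∀ᶠ N : ℕ in atTop,
        (N : ℝ) • L (w N) + G (w N) = (N : ℝ) • (z (i + 1), z (i + 2)) := by
      refine ⟨fun N => if h : ∃ w, (N : ℝ) • L w + G w = (N : ℝ) • (z (i + 1), z (i + 2)) then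
        h.choose else 0, ?_⟩
      filter_upwards [h1] with N hN
      rw [dif_pos hN]
      exact hN.choose_spec
    refine ⟨w, ?_, L.symm (z (i + 1), z (i + 2)), hconv _ w hw, ?_⟩
    · filter_upwards [hw] with N hN
      rw [hval N (w N)] at hN
      rw [Prod.ext_iff] at hN
      exact hN
    · have h2 := hLw (L.symm (z (i + 1), z (i + 2)))
      rw [ContinuousLinearEquiv.apply_symm_apply, Prod.mk.injEq] at h2
      refine ⟨h2.1.symm, h2.2.symm, ?_⟩
      rw [xx_sum _ i, ← h2.1, ← h2.2]
  -- the leading term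
  have hlead : ∀ (z : Sp) (w : ℕ → Pl) (w₀ : Pl), Tendsto w atTop (𝓝 w₀) →
      Tendsto (fun N : ℕ => xx (w N) i) atTop (𝓝 (xx w₀ i)) ∧
      Tendsto (fun N : ℕ => psi (AA v 0 i) (w N)) atTop (𝓝 (psi (AA v 0 i) w₀)) := by
    intro z w w₀ h
    exact ⟨((xx_cont i).tendsto w₀).comp h, ((psi_cont (hne i)).tendsto w₀).comp h⟩
  have hN : Tendsto (fun N : ℕ => (N : ℝ)) atTop atTop := tendsto_natCast_atTop_atTop
  refine ⟨?_, ?_, ?_⟩
  · filter_upwards [hhom] with N hN
    obtain ⟨H, hH'⟩ := hN
    exact ⟨H, fun w => by rw [hH', hval]⟩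
  · intro z k hz hk hmin
    obtain ⟨w, hw, w₀, hw₀, e1, e2, e3⟩ := key z
    obtain ⟨t1, t2⟩ := hlead z w w₀ hw₀
    have h3 : Tendsto (fun N : ℕ => (N : ℝ) * (z i - xx (w N) i) + - psi (AA v 0 i) (w N)) atTop
        atTop := by
      refine Tendsto.atTop_add ?_ t2.neg
      refine Tendsto.atTop_mul_pos (C := z i - xx w₀ i) ?_ hN (tendsto_const_nhds.sub t1)
      rw [e3]
      have := z_sum z i
      linarith
    have h4 : ∀ᶠ N : ℕ in atTop, ∀ l ∈ Finset.range (v i), l ≠ k →
        phi i k (xx (w N)) < phi i l (xx (w N)) := by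
      rw [Finset.eventually_all]
      intro l hl
      by_cases hlk : l = k
      · exact Eventually.of_forall fun N h => absurd hlk h
      · have h5 := hmin l (Finset.mem_range.1 hl) hlk
        rw [phi_congr (z' := z) (z := xx w₀) e1 e2 |>.symm, phi_congr (z' := z) (z := xx w₀) e1 e2 |>.symm] at h5
        have h6 : ∀ᶠ u in 𝓝 w₀, phi i k (xx u) < phi i l (xx u) :=
          (phi_cont i k).continuousAt.eventually_lt (phi_cont i l).continuousAt h5
        filter_upwards [hw₀.eventually h6] with N hN _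
        exact hN
    filter_upwards [hw, h3.eventually_gt_atTop 0, h4] with N h5 h6 h7
    refine ⟨w N, h5.1, h5.2, ?_, ?_⟩
    · rw [hpsi v N i _ (hv i)]
      simp only [Pi.smul_apply, smul_eq_mul, Int.cast_natCast]
      linarith
    · rw [hNC]
      exact fun l hl hlk => h7 l (Finset.mem_range.2 hl) hlk
  · intro z hz
    obtain ⟨w, hw, w₀, hw₀, e1, e2, e3⟩ := key z
    obtain ⟨t1, t2⟩ := hlead z w w₀ hw₀
    have h3 : Tendsto (fun N : ℕ => (N : ℝ) * (xx (w N) i - z i) + psi (AA v 0 i) (w N)) atTop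
        atTop := by
      refine Tendsto.atTop_add ?_ t2
      refine Tendsto.atTop_mul_pos (C := xx w₀ i - z i) ?_ hN (t1.sub tendsto_const_nhds)
      rw [e3]
      have := z_sum z i
      linarith
    filter_upwards [hw, h3.eventually_gt_atTop 0] with N h5 h6
    refine ⟨w N, h5.1, h5.2, ?_⟩
    rw [hpsi v N i _ (hv i)]
    simp only [Pi.smul_apply, smul_eq_mul, Int.cast_natCast]
    linarith

end Pool.Agent.Lib.MP_4e7804_co.N3.Low
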