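import Pool.Agent.Lib.MP_4e7804_co.N3.Low.Spec

/-!
# Lip: the support function is Lipschitz
-/

set_option autoImplicit false

open scoped NNReal

namespace Pool.Agent.Lib.MP_4e7804_co.N3.Low

theorem tLip : StmtLip := by
  intro A hA
  refine ⟨∑ p ∈ A, (‖p.1‖₊ + ‖p.2‖₊), LipschitzWith.of_le_add_mul _ ?_⟩
  intro x y
  obtain ⟨p, hp, hp'⟩ := exists_psi hA y
  have h1 := psi_le hp x
  have h2 : dt p x = dt p y + dt p (x - y) := by rw [dt_sub]; ring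
  have h3 : dt p (x - y) ≤ (‖p.1‖ + ‖p.2‖) * dist x y := by
    have h4 : ‖(x - y).1‖ ≤ dist x y := by
      rw [dist_eq_norm]
      exact norm_fst_le (x - y)
    have h5 : ‖(x - y).2‖ ≤ dist x y := by
      rw [dist_eq_norm]
      exact norm_snd_le (x - y)
    have h6 : p.1 * (x - y).1 ≤ ‖p.1‖ * ‖(x - y).1‖ := by
      rw [← norm_mul]
      exact Real.le_norm_self _
    have h7 : p.2 * (x - y).2 ≤ ‖p.2‖ * ‖(x - y).2‖ := by
      rw [← norm_mul]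
      exact Real.le_norm_self _
    have h8 := mul_le_mul_of_nonneg_left h4 (norm_nonneg p.1)
    have h9 := mul_le_mul_of_nonneg_left h5 (norm_nonneg p.2)
    unfold dt
    linarith
  have h4 : ‖p.1‖ + ‖p.2‖ ≤ ((∑ p ∈ A, (‖p.1‖₊ + ‖p.2‖₊) : ℝ≥0) : ℝ) := by
    have h5 : ‖p.1‖₊ + ‖p.2‖₊ ≤ ∑ p ∈ A, (‖p.1‖₊ + ‖p.2‖₊) :=
      Finset.single_le_sum (f := fun p : Pl => ‖p.1‖₊ + ‖p.2‖₊) (fun _ _ => zero_le) hp
    exact_mod_cast h5
  have h5 := mul_le_mul_of_nonneg_right h4 (dist_nonneg (x := x) (y := y))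
  linarith

end Pool.Agent.Lib.MP_4e7804_co.N3.Low
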