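import Pool.Agent.Lib.MP_4e7804_co.N3.Low.Spec

/-!
# n = 3, lower bound: assembly
-/

set_option autoImplicit false

open Filter Topology
open scoped NNReal

namespace Pool.Agent.Lib.MP_4e7804_co.N3.Low

namespace LowN

theorem zero_mem (A : Fin 3 → Finset Pl) (hA : ∀ i, (A i).Nonempty) : (0 : Sp) ∈ Gam A := by
  refine ⟨0, fun i => ?_, ?_⟩
  · rw [psi_zero (hA i)]
    exact ⟨le_rfl, Or.inr rfl⟩
  · rintro ⟨-, h⟩
    exact lt_irrefl _ (h 0)

theorem trop_ne {M : Finset Sp} {z : Sp} (h : z ∈ trop M) : M.Nonempty := by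
  obtain ⟨a, ha, -⟩ := h
  exact ⟨a, ha⟩

end LowN

open LowN

theorem tLow (hF : StmtFam) (hA : StmtAlg) (hL : StmtLim) (hR : StmtRegions) (hP : StmtPts)
    (hC : StmtCard) (hD : StmtDist) : StmtLow := by
  intro v hv
  obtain ⟨hA1, hA2, hA3⟩ := hA v hv
  obtain ⟨-, -, hc, -, -, -⟩ := hF
  have hhom : ∀ᶠ N : ℕ in atTop, ∀ i : Fin 3, Hm (AA v N) i := by
    rw [eventually_all]
    exact fun i => (hL v hv i).1
  obtain ⟨N, h1, h2, h3⟩ := (hhom.and (hA2.and (hP v hv))).exists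
  have hne : ∀ i, (AA v N i).Nonempty := by
    intro i
    rw [← Finset.card_pos, (hc v N i).2]
    exact Nat.pos_of_ne_zero (hv i)
  refine ⟨Vf v N, fun i => (hc v N i).1, fun i p hp => hA1 N i p hp, fun i p hp q hq =>
    h2 i p hp q hq, fun i j hij w hw hw' => hA3 N i j hij w hw hw', fun M hM => ?_⟩
  rw [← hC v hv]
  refine hR M (trop_ne (hM (zero_mem _ hne))) Lab (labels v) (UU v N) (fun x hx => h3 x hx) ?_
  intro x hx y hy hxy C hC1 hC2 hC3 hC4
  exact hD v hv N h1 C hC1 (hC2.mono_right hM) x hx y hy hxy hC3 hC4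

end Pool.Agent.Lib.MP_4e7804_co.N3.Low
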