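import Pool.Agent.Lib.MP_4e7804_co.N3.Low.Spec

/-!
# n = 3, lower bound, module Opn
-/

set_option autoImplicit false

namespace Pool.Agent.Lib.MP_4e7804_co.N3.Low

namespace OpnN

/-- the preimage of the two coordinates -/
theorem key {A : Fin 3 → Finset Pl} {i : Fin 3} {H : Pl ≃ₜ Pl}
    (hH : ∀ w, H w = (psi (A (i + 1)) w, psi (A (i + 2)) w)) (z : Sp) (w : Pl) :
    (psi (A (i + 1)) w = z (i + 1) ∧ psi (A (i + 2)) w = z (i + 2)) ↔
      w = H.symm (z (i + 1), z (i + 2)) := by
  rw [Homeomorph.eq_symm_apply, hH, Prod.mk.injEq]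

end OpnN

open OpnN in
theorem tOpn : StmtOpn := by
  rintro A i hA ⟨H, hH⟩
  have hW : Continuous fun z : Sp => H.symm (z (i + 1), z (i + 2)) :=
    H.symm.continuous.comp ((continuous_apply _).prodMk (continuous_apply _))
  have hp : Continuous fun z : Sp => psi (A i) (H.symm (z (i + 1), z (i + 2))) :=
    (psi_cont hA).comp hW
  refine ⟨fun p => ?_, ?_⟩
  · have h1 : {z | Abv A i p z} = {z : Sp | psi (A i) (H.symm (z (i + 1), z (i + 2))) < z i} ∩
        (fun z : Sp => H.symm (z (i + 1), z (i + 2))) ⁻¹' NC (A i) p := by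
      ext z
      constructor
      · rintro ⟨w, h2, h3, h4, h5⟩
        obtain rfl := (key hH z w).1 ⟨h2, h3⟩
        exact ⟨h4, h5⟩
      · rintro ⟨h4, h5⟩
        obtain ⟨h2, h3⟩ := (key hH z _).2 rfl
        exact ⟨_, h2, h3, h4, h5⟩
    rw [h1]
    exact (isOpen_lt hp (continuous_apply i)).inter ((NC_open (A i) p).preimage hW)
  · have h1 : {z | Blw A i z} = {z : Sp | z i < psi (A i) (H.symm (z (i + 1), z (i + 2)))} := by
      ext z
      constructor
      · rintro ⟨w, h2, h3, h4⟩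
        obtain rfl := (key hH z w).1 ⟨h2, h3⟩
        exact h4
      · intro h4
        obtain ⟨h2, h3⟩ := (key hH z _).2 rfl
        exact ⟨_, h2, h3, h4⟩
    rw [h1]
    exact isOpen_lt (continuous_apply i) hp

end Pool.Agent.Lib.MP_4e7804_co.N3.Low
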