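import Pool.Agent.Lib.MP_4e7804_co.N3.Low.Spec

/-!
# n = 3, lower bound: the sets of the labels are open and nonempty
-/

set_option autoImplicit false

open Filter Topology

namespace Pool.Agent.Lib.MP_4e7804_co.N3.Low

namespace PtsN

theorem tri (i l : Fin 3) : i = l ∨ i = l + 1 ∨ i = l + 2 := by
  revert i l
  decide

theorem ne1 (l : Fin 3) : l + 1 ≠ l := by
  revert l
  decide

theorem ne2 (l : Fin 3) : l + 2 ≠ l := by
  revert l
  decide

theorem ne3 (l : Fin 3) : l + 2 ≠ l + 1 := by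
  revert l
  decide

theorem all3 {P : Fin 3 → Prop} (l : Fin 3) (h0 : P l) (h1 : P (l + 1)) (h2 : P (l + 2)) :
    ∀ i, P i := by
  intro i
  rcases tri i l with rfl | rfl | rfl <;> assumption

/-- points with given coordinates -/
theorem core (l : Fin 3) (x y w : ℝ) : ∃ z : Sp, z l = x ∧ z (l + 1) = y ∧ z (l + 2) = w ∧
    z 0 + z 1 + z 2 = x + y + w ∧
    (∀ k : ℕ, phi l k z = -2 * k * y + k * (k + 3) * w) ∧
    (∀ k : ℕ, phi (l + 1) k z = -2 * k * w + k * (k + 3) * x) ∧
    (∀ k : ℕ, phi (l + 2) k z = -2 * k * x + k * (k + 3) * y) := by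
  fin_cases l
  · refine ⟨![x, y, w], rfl, rfl, rfl, rfl, fun k => rfl, fun k => rfl, fun k => rfl⟩
  · refine ⟨![w, x, y], rfl, rfl, rfl, ?_, fun k => rfl, fun k => rfl, fun k => rfl⟩
    change w + x + y = x + y + w
    ring
  · refine ⟨![y, w, x], rfl, rfl, rfl, ?_, fun k => rfl, fun k => rfl, fun k => rfl⟩
    change y + w + x = x + y + w
    ring

variable {v : Fin 3 → ℕ}

theorem abv_all (hL : StmtLim) (hv : ∀ i, v i ≠ 0) (T : Fin 3 → ℕ) (hT : ∀ i, T i < v i) (z : Sp)
    (hz : 0 < z 0 + z 1 + z 2)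
    (hphi : ∀ i l, l < v i → l ≠ T i → phi i (T i) z < phi i l z) :
    ∀ᶠ N : ℕ in atTop, ∀ i, Abv (AA v N) i (toPl (pnt N i (T i))) ((N : ℝ) • z) :=
  eventually_all.2 fun i => (hL v hv i).2.1 z (T i) hz (hT i) (hphi i)

theorem abv_open (hO : StmtOpn) (hF : StmtFam) (hv : ∀ i, v i ≠ 0) (N : ℕ)
    (hN : ∀ i, Hm (AA v N) i) (T : Fin 3 → ℕ) :
    IsOpen {z | ∀ i, Abv (AA v N) i (toPl (pnt N i (T i))) z} := by
  have h : {z | ∀ i, Abv (AA v N) i (toPl (pnt N i (T i))) z} =
      ⋂ i, {z | Abv (AA v N) i (toPl (pnt N i (T i))) z} := by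
    ext z
    simp
  rw [h]
  refine isOpen_iInter_of_finite fun i => ?_
  have hne : (AA v N i).Nonempty := by
    rw [← Finset.card_pos, (hF.2.2.1 v N i).2]
    exact Nat.pos_of_ne_zero (hv i)
  exact (hO (AA v N) i hne (hN i)).1 _

theorem sq_lt {k m : ℕ} (h : k ≠ m) : 0 < ((k : ℝ) - m) ^ 2 := by
  have : (k : ℝ) - m ≠ 0 := by
    rw [sub_ne_zero]
    exact_mod_cast h
  positivity

end PtsN

open PtsN in
theorem tPts (hL : StmtLim) (hO : StmtOpn) (hF : StmtFam) : StmtPts := by
  classical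
  intro v hv
  have hHm : ∀ᶠ N : ℕ in atTop, ∀ i, Hm (AA v N) i := eventually_all.2 fun i => (hL v hv i).1
  rw [Filter.eventually_all_finset]
  intro x hx
  rcases x with _ | t | ⟨l, m⟩
  · have h1 := (hL v hv 0).2.2 (fun _ => -1) (by norm_num)
    filter_upwards [hHm, h1] with N hN hN1
    have hne : (AA v N 0).Nonempty := by
      rw [← Finset.card_pos, (hF.2.2.1 v N 0).2]
      exact Nat.pos_of_ne_zero (hv 0)
    exact ⟨(hO (AA v N) 0 hne (hN 0)).2, ⟨_, hN1⟩⟩
  · have ht : t ∈ inner v := by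
      have h1 := Finset.some_mem_insertNone.1 hx
      exact Finset.inl_mem_disjSum.1 h1
    unfold inner at ht
    rw [Finset.mem_filter, Fintype.mem_piFinset] at ht
    obtain ⟨ht1, l, hl⟩ := ht
    have ht1' : ∀ i, t i < v i := fun i => Finset.mem_range.1 (ht1 i)
    obtain ⟨z, z0, z1, z2, hs, p0, p1, p2⟩ := core l ((t (l + 2) : ℝ) + 3 / 2) 1
      (((t (l + 1) : ℝ) + 3 / 2) * ((t (l + 2) : ℝ) + 3 / 2))
    have ha : (0 : ℝ) ≤ t (l + 1) := Nat.cast_nonneg _
    have hb : (0 : ℝ) ≤ t (l + 2) := Nat.cast_nonneg _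
    have hab : (9 / 4 : ℝ) ≤ ((t (l + 1) : ℝ) + 3 / 2) * ((t (l + 2) : ℝ) + 3 / 2) := by
      nlinarith [mul_nonneg ha hb]
    have hpos : ∀ i, 0 < z i := by
      refine all3 l ?_ ?_ ?_
      · rw [z0]
        linarith
      · rw [z1]
        exact one_pos
      · rw [z2]
        linarith
    have h1 := abv_all hL hv t ht1' z (by
        have a0 := hpos 0
        have a1 := hpos 1
        have a2 := hpos 2
        linarith) (by
      refine all3 l ?_ ?_ ?_
      · intro k _ hk
        rw [hl] at hk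
        rw [p0, p0, hl]
        have hk1 : (1 : ℝ) ≤ k := by
          exact_mod_cast Nat.one_le_iff_ne_zero.2 hk
        have h3 : (k : ℝ) * (k + 3) * (9 / 4) ≤ k * (k + 3) *
            (((t (l + 1) : ℝ) + 3 / 2) * ((t (l + 2) : ℝ) + 3 / 2)) := by
          apply mul_le_mul_of_nonneg_left hab
          positivity
        push_cast
        nlinarith [mul_nonneg (sub_nonneg.2 hk1) (sub_nonneg.2 hk1)]
      · intro k _ hk
        rw [p1, p1]
        have h4 := mul_pos (by linarith : (0 : ℝ) < (t (l + 2) : ℝ) + 3 / 2) (sq_lt hk)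
        nlinarith [h4]
      · intro k _ hk
        rw [p2, p2]
        have h4 := sq_lt hk
        nlinarith [h4])
    filter_upwards [hHm, h1, eventually_gt_atTop 0] with N hN hN1 hN0
    have hN0' : (0 : ℝ) < N := by exact_mod_cast hN0
    constructor
    · have h5 : IsOpen {z : Sp | ∀ i, 0 < z i} := by
        have h6 : {z : Sp | ∀ i, 0 < z i} = ⋂ i, {z : Sp | 0 < z i} := by
          ext z
          simp
        rw [h6]
        exact isOpen_iInter_of_finite fun i => isOpen_lt continuous_const (continuous_apply i)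
      exact (abv_open hO hF hv N hN t).inter h5
    · refine ⟨(N : ℝ) • z, hN1, fun i => ?_⟩
      rw [Pi.smul_apply, smul_eq_mul]
      exact mul_pos hN0' (hpos i)
  · have ht : (l, m) ∈ side v := by
      have h1 := Finset.some_mem_insertNone.1 hx
      exact Finset.inr_mem_disjSum.1 h1
    unfold side at ht
    rw [Finset.mem_filter] at ht
    obtain ⟨-, hm, hv1, hv2⟩ := ht
    simp only at hm hv1 hv2
    have t0 : tt v l m l = m := if_pos rfl
    have t1 : tt v l m (l + 1) = v (l + 1) - 1 := by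
      unfold tt
      rw [if_neg (ne1 l), if_pos rfl]
    have t2 : tt v l m (l + 2) = 0 := by
      unfold tt
      rw [if_neg (ne2 l), if_neg (ne3 l)]
    obtain ⟨z, z0, z1, z2, hs, p0, p1, p2⟩ := core l (-1) ((m : ℝ) + 3 / 2) 1
    have hm0 : (0 : ℝ) ≤ m := Nat.cast_nonneg _
    have h1 := abv_all hL hv (tt v l m) (by
        refine all3 l ?_ ?_ ?_
        · rw [t0]
          exact hm
        · rw [t1]
          have := hv (l + 1)
          omega
        · rw [t2]
          exact Nat.pos_of_ne_zero (hv _)) z (by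
        rw [hs]
        linarith) (by
      refine all3 l ?_ ?_ ?_
      · intro k _ hk
        rw [t0] at hk ⊢
        rw [p0, p0]
        have h4 := sq_lt hk
        nlinarith [h4]
      · intro k hk1 hk
        rw [t1] at hk ⊢
        rw [p1, p1]
        have h5 : (k : ℝ) + 1 ≤ ((v (l + 1) - 1 : ℕ) : ℝ) := by
          exact_mod_cast (by omega : k + 1 ≤ v (l + 1) - 1)
        have h6 : (0 : ℝ) ≤ k := Nat.cast_nonneg _
        nlinarith [mul_nonneg h6 (by linarith : (0 : ℝ) ≤ ((v (l + 1) - 1 : ℕ) : ℝ) - k)]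
      · intro k _ hk
        rw [t2] at hk ⊢
        rw [p2, p2]
        have hk1 : (1 : ℝ) ≤ k := by
          exact_mod_cast Nat.one_le_iff_ne_zero.2 hk
        push_cast
        have h7 : (0 : ℝ) ≤ (k : ℝ) * (k + 3) * ((m : ℝ) + 3 / 2) := by positivity
        nlinarith [h7])
    filter_upwards [hHm, h1, eventually_gt_atTop 0] with N hN hN1 hN0
    have hN0' : (0 : ℝ) < N := by exact_mod_cast hN0
    constructor
    · refine (abv_open hO hF hv N hN (tt v l m)).inter ?_
      exact (isOpen_lt (continuous_apply l) continuous_const).inter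
        ((isOpen_lt continuous_const (continuous_apply (l + 1))).inter
          (isOpen_lt continuous_const (continuous_apply (l + 2))))
    · refine ⟨(N : ℝ) • z, hN1, ?_, ?_, ?_⟩
      · change (N : ℝ) * z l < 0
        rw [z0]
        linarith
      · change 0 < (N : ℝ) * z (l + 1)
        rw [z1]
        positivity
      · change 0 < (N : ℝ) * z (l + 2)
        rw [z2]
        linarith

end Pool.Agent.Lib.MP_4e7804_co.N3.Low
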