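import Pool.Agent.Lib.MP_4e7804_co.N3.Low.Spec

/-!
# Sep: the surface separates points of different types
-/

set_option autoImplicit false

namespace Pool.Agent.Lib.MP_4e7804_co.N3.Low

namespace SepN

theorem three : ∀ i j : Fin 3, j = i ∨ j = i + 1 ∨ j = i + 2 := by decide

/-- the segment -/
def gam (z z' : Sp) (t : ℝ) : Sp := (1 - t) • z + t • z'

theorem gam_apply (z z' : Sp) (t : ℝ) (i : Fin 3) : gam z z' t i = (1 - t) * z i + t * z' i := rfl

theorem gam_zero (z z' : Sp) : gam z z' 0 = z := by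
  unfold gam
  simp

theorem gam_one (z z' : Sp) : gam z z' 1 = z' := by
  unfold gam
  simp

theorem gam_mem {C : Set Sp} (hC : Convex ℝ C) {z z' : Sp} (hz : z ∈ C) (hz' : z' ∈ C) {t : ℝ}
    (ht : t ∈ Set.Icc (0 : ℝ) 1) : gam z z' t ∈ C :=
  hC hz hz' (by linarith [ht.2]) ht.1 (by ring)

theorem gam_cont (z z' : Sp) (i : Fin 3) : Continuous fun t => gam z z' t i := by
  simp only [gam_apply]
  fun_prop

variable {A : Fin 3 → Finset Pl}

theorem zero_CL {B : Finset Pl} (hB : B.Nonempty) (hc : B.card ≠ 1) : (0 : Pl) ∈ CL B := by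
  have h1 : 1 < B.card := by
    have := hB.card_pos
    omega
  obtain ⟨p, hp, q, hq, hpq⟩ := Finset.one_lt_card.1 h1
  exact (CL_iff hB).2 ⟨p, hp, q, hq, hpq, by rw [dt_zero, psi_zero hB], by
    rw [dt_zero, psi_zero hB]⟩

/-- the path in the plane -/
noncomputable def path (H : Pl ≃ₜ Pl) (i : Fin 3) (z z' : Sp) (t : ℝ) : Pl :=
  H.symm (gam z z' t (i + 1), gam z z' t (i + 2))

theorem path_cont (H : Pl ≃ₜ Pl) (i : Fin 3) (z z' : Sp) : Continuous (path H i z z') :=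
  H.symm.continuous.comp ((gam_cont z z' (i + 1)).prodMk (gam_cont z z' (i + 2)))

theorem path_psi {H : Pl ≃ₜ Pl} {i : Fin 3}
    (hH : ∀ w, H w = (psi (A (i + 1)) w, psi (A (i + 2)) w)) (z z' : Sp) (t : ℝ) :
    psi (A (i + 1)) (path H i z z' t) = gam z z' t (i + 1) ∧
      psi (A (i + 2)) (path H i z z' t) = gam z z' t (i + 2) := by
  have h1 := hH (path H i z z' t)
  have h2 : H (path H i z z' t) = (gam z z' t (i + 1), gam z z' t (i + 2)) :=
    H.apply_symm_apply _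
  rw [h2] at h1
  exact ⟨(congrArg Prod.fst h1).symm, (congrArg Prod.snd h1).symm⟩

theorem path_eq {H : Pl ≃ₜ Pl} {i : Fin 3}
    (hH : ∀ w, H w = (psi (A (i + 1)) w, psi (A (i + 2)) w)) {z z' : Sp} {t : ℝ} {w : Pl}
    (h1 : psi (A (i + 1)) w = gam z z' t (i + 1)) (h2 : psi (A (i + 2)) w = gam z z' t (i + 2)) :
    path H i z z' t = w := by
  unfold path
  rw [← h1, ← h2, ← hH w, H.symm_apply_apply]

/-- no point of the path is a witness -/
theorem no_wit (hA : ∀ i, (A i).Nonempty) {C : Set Sp} (hC : Convex ℝ C)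
    (hd : Disjoint C (Gam A)) {z z' : Sp} (hz : z ∈ C) (hz' : z' ∈ C) {H : Pl ≃ₜ Pl} {i : Fin 3}
    (hH : ∀ w, H w = (psi (A (i + 1)) w, psi (A (i + 2)) w)) {t : ℝ}
    (ht : t ∈ Set.Icc (0 : ℝ) 1) (h1 : psi (A i) (path H i z z' t) ≤ gam z z' t i)
    (h2 : path H i z z' t ∈ CL (A i) ∨ gam z z' t i = psi (A i) (path H i z z' t)) : False := by
  have hp := path_psi hH z z' t
  refine Set.disjoint_left.1 hd (gam_mem hC hz hz' ht) ⟨path H i z z' t, ?_, ?_⟩
  · intro j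
    rcases three i j with rfl | rfl | rfl
    · exact ⟨h1, h2⟩
    · exact ⟨hp.1.le, Or.inr hp.1.symm⟩
    · exact ⟨hp.2.le, Or.inr hp.2.symm⟩
  · rintro ⟨h3, h4⟩
    have h5 := h4 (i + 1)
    rw [← hp.1, h3, psi_zero (hA _)] at h5
    exact lt_irrefl _ h5

theorem pos (hA : ∀ i, (A i).Nonempty) {C : Set Sp} (hC : Convex ℝ C)
    (hd : Disjoint C (Gam A)) {z z' : Sp} (hz : z ∈ C) (hz' : z' ∈ C) {H : Pl ≃ₜ Pl} {i : Fin 3}
    (hH : ∀ w, H w = (psi (A (i + 1)) w, psi (A (i + 2)) w))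
    (h0 : psi (A i) (path H i z z' 0) < gam z z' 0 i) {t : ℝ} (ht : t ∈ Set.Icc (0 : ℝ) 1) :
    psi (A i) (path H i z z' t) < gam z z' t i := by
  by_contra hcon
  push Not at hcon
  have hc : Continuous fun t => gam z z' t i - psi (A i) (path H i z z' t) :=
    (gam_cont z z' i).sub ((psi_cont (hA i)).comp (path_cont H i z z'))
  have h1 := intermediate_value_Icc' ht.1 hc.continuousOn
  have h2 : (0 : ℝ) ∈ Set.Icc (gam z z' t i - psi (A i) (path H i z z' t))
      (gam z z' 0 i - psi (A i) (path H i z z' 0)) := ⟨by linarith, by linarith⟩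
  obtain ⟨s, hs, hs'⟩ := h1 h2
  have hs2 : gam z z' s i = psi (A i) (path H i z z' s) := sub_eq_zero.1 hs'
  exact no_wit hA hC hd hz hz' hH ⟨hs.1, hs.2.trans ht.2⟩ hs2.ge (Or.inr hs2)

end SepN

open SepN in
theorem tSep : StmtSep := by
  intro A hA C hC hd z hz z' hz'
  refine ⟨?_, ?_, ?_⟩
  · rintro i ⟨H, hH⟩ p hp ⟨w, hw1, hw2, hw3, hw4⟩ ⟨w', hw1', hw2', hw3'⟩
    have e0 : path H i z z' 0 = w := path_eq hH (by rw [gam_zero]; exact hw1) (by
      rw [gam_zero]; exact hw2)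
    have e1 : path H i z z' 1 = w' := path_eq hH (by rw [gam_one]; exact hw1') (by
      rw [gam_one]; exact hw2')
    have h1 := pos hA hC hd hz hz' hH (by rw [e0, gam_zero]; exact hw3)
      (t := 1) ⟨zero_le_one, le_rfl⟩
    rw [e1, gam_one] at h1
    exact lt_asymm h1 hw3'
  · rintro i ⟨H, hH⟩ p hp p' hp' ⟨w, hw1, hw2, hw3, hw4⟩ ⟨w', hw1', hw2', hw3', hw4'⟩
    have e0 : path H i z z' 0 = w := path_eq hH (by rw [gam_zero]; exact hw1) (by
      rw [gam_zero]; exact hw2)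
    have e1 : path H i z z' 1 = w' := path_eq hH (by rw [gam_one]; exact hw1') (by
      rw [gam_one]; exact hw2')
    have h1 : ∀ t ∈ Set.Icc (0 : ℝ) 1, ∃ q ∈ A i, path H i z z' t ∈ NC (A i) q := by
      intro t ht
      rcases mem_CL_or (A i) (path H i z z' t) with h | h
      · exact (no_wit hA hC hd hz hz' hH ht (pos hA hC hd hz hz' hH
          (by rw [e0, gam_zero]; exact hw3) ht).le (Or.inl h)).elim
      · exact h
    by_contra hne
    have hpre : IsPreconnected (path H i z z' '' Set.Icc (0 : ℝ) 1) :=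
      isPreconnected_Icc.image _ (path_cont H i z z').continuousOn
    have hV : IsOpen (⋃ q ∈ {q | q ∈ A i ∧ q ≠ p}, NC (A i) q) :=
      isOpen_biUnion fun q _ => NC_open (A i) q
    obtain ⟨x, _, hx1, hx2⟩ := hpre (NC (A i) p) (⋃ q ∈ {q | q ∈ A i ∧ q ≠ p}, NC (A i) q)
      (NC_open (A i) p) hV (by
        rintro _ ⟨t, ht, rfl⟩
        obtain ⟨q, hq, hq'⟩ := h1 t ht
        by_cases hqp : q = p
        · left
          rw [← hqp]
          exact hq'
        · right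
          exact Set.mem_biUnion (show q ∈ {q | q ∈ A i ∧ q ≠ p} from ⟨hq, hqp⟩) hq')
      ⟨w, ⟨0, ⟨le_rfl, zero_le_one⟩, e0⟩, hw4⟩
      ⟨w', ⟨1, ⟨zero_le_one, le_rfl⟩, e1⟩,
        Set.mem_biUnion (show p' ∈ {q | q ∈ A i ∧ q ≠ p} from ⟨hp', fun h => hne h.symm⟩) hw4'⟩
    obtain ⟨q, hq, hq'⟩ := Set.mem_iUnion₂.1 hx2
    exact hq.2 (NC_unique hq.1 hp hq' hx1)
  · intro l hc1 hc2 hpos hl hl1 hl2
    have hl0 := hpos l
    have hden : 0 < z l - z' l := by linarith
    have ht0 : 0 < z l / (z l - z' l) := div_pos hl0 hden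
    have ht1 : z l / (z l - z' l) < 1 := by
      rw [div_lt_one hden]
      linarith
    set t : ℝ := z l / (z l - z' l) with ht
    have hg : gam z z' t l = 0 := by
      rw [gam_apply]
      have h1 : t * (z l - z' l) = z l := div_mul_cancel₀ _ hden.ne'
      linarith
    have hg1 : 0 < gam z z' t (l + 1) := by
      rw [gam_apply]
      have h2 := mul_pos (sub_pos.2 ht1) (hpos (l + 1))
      have h3 := mul_pos ht0 hl1
      linarith
    have hg2 : 0 < gam z z' t (l + 2) := by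
      rw [gam_apply]
      have h2 := mul_pos (sub_pos.2 ht1) (hpos (l + 2))
      have h3 := mul_pos ht0 hl2
      linarith
    refine Set.disjoint_left.1 hd (gam_mem hC hz hz' ⟨ht0.le, ht1.le⟩) ⟨0, ?_, ?_⟩
    · intro j
      rw [psi_zero (hA j)]
      rcases three l j with rfl | rfl | rfl
      · exact ⟨hg.ge, Or.inr hg⟩
      · exact ⟨hg1.le, Or.inl (zero_CL (hA _) hc1)⟩
      · exact ⟨hg2.le, Or.inl (zero_CL (hA _) hc2)⟩
    · rintro ⟨_, h⟩
      exact (h l).ne' hg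

end Pool.Agent.Lib.MP_4e7804_co.N3.Low
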