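import Pool.Agent.Lib.MP_4e7804_co.N3.Low.Alg
import Pool.Agent.Lib.MP_4e7804_co.N3.Low.Card
import Pool.Agent.Lib.MP_4e7804_co.N3.Low.Dist
import Pool.Agent.Lib.MP_4e7804_co.N3.Low.Fam
import Pool.Agent.Lib.MP_4e7804_co.N3.Low.Homeo
import Pool.Agent.Lib.MP_4e7804_co.N3.Low.Lim
import Pool.Agent.Lib.MP_4e7804_co.N3.Low.Lip
import Pool.Agent.Lib.MP_4e7804_co.N3.Low.Low
import Pool.Agent.Lib.MP_4e7804_co.N3.Low.Opn
import Pool.Agent.Lib.MP_4e7804_co.N3.Low.Pts
import Pool.Agent.Lib.MP_4e7804_co.N3.Low.Regions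
import Pool.Agent.Lib.MP_4e7804_co.N3.Low.Sep

/-!
# n = 3, lower bound: all modules together
-/

set_option autoImplicit false

namespace Pool.Agent.Lib.MP_4e7804_co.N3.Low

/-- the geometric half of the lower bound, unconditional -/
theorem lowAll : StmtLow := by
  have hL : StmtLim := tLim tHomeo tLip tFam
  exact tLow tFam (tAlg tFam) hL tRegions (tPts hL tOpn tFam) tCard (tDist tSep tFam)

end Pool.Agent.Lib.MP_4e7804_co.N3.Low
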