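import Pool.Agent.Lib.MP_4e7804_co.N3.Low.Defs

/-!
# n = 3, lower bound: statements

Every statement is a `Prop`; its docstring contains a complete proof. Delivery format: file
`N3/Low/<Name>.lean`, first line `import Pool.Agent.Lib.MP_4e7804_co.N3.Low.Spec`, private lemmas in the
namespace `Pool.Agent.Lib.MP_4e7804_co.N3.Low.<Name>N`, final theorem
`Pool.Agent.Lib.MP_4e7804_co.N3.Low.t<Name>`, with the statements listed under `Uses` as hypotheses.
-/

set_option autoImplicit false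

open Filter Topology
open scoped NNReal

namespace Pool.Agent.Lib.MP_4e7804_co.N3.Low

/-- **Homeo** a large multiple of a linear isomorphism plus a Lipschitz map. Proof. (1) If `N` is large,
`w ↦ N • L w + G w` approximates the linear equivalence `N • L` on `univ` with the constant `K`, and
`K < ‖(N • L).symm‖⁻¹ = N ‖L.symm‖⁻¹`: `ApproximatesLinearOn.toHomeomorph` (or: `w ↦ L w + N⁻¹ • G w`
approximates `L` with the constant `K / N`, and compose with `Homeomorph.smulOfNeZero`). (2) From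
`N • L (w N) + G (w N) = N • y` we get `w N - L.symm y = - N⁻¹ • L.symm (G (w N))`, so with
`C = ‖L.symm‖` : `‖w N - L.symm y‖ ≤ C K ‖w N‖ / N` (`G 0 = 0`). If `N ≥ 2 C K` then
`‖w N‖ ≤ 2 ‖L.symm y‖`, so `‖w N - L.symm y‖ ≤ 2 C K ‖L.symm y‖ / N → 0`. -/
def StmtHomeo : Prop := ∀ (L : Pl ≃L[ℝ] Pl) (G : Pl → Pl) (K : ℝ≥0), LipschitzWith K G → G 0 = 0 →
  (∀ᶠ N : ℕ in atTop, ∃ H : Pl ≃ₜ Pl, ∀ w, H w = (N : ℝ) • L w + G w) ∧
  ∀ (y : Pl) (w : ℕ → Pl), (∀ᶠ N : ℕ in atTop, (N : ℝ) • L (w N) + G (w N) = (N : ℝ) • y) →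
    Tendsto w atTop (𝓝 (L.symm y))

/-- **Lip** the support function is Lipschitz. Proof. `psi A w = dt p w` for some `p ∈ A`, so
`psi A w' - psi A w ≤ dt p w' - dt p w = dt p (w' - w) ≤ (|p.1| + |p.2|) ‖w' - w‖`; take `K` the sum of the
`|p.1| + |p.2|` over `A`. -/
def StmtLip : Prop := ∀ A : Finset Pl, A.Nonempty → ∃ K : ℝ≥0, LipschitzWith K (psi A)

/-- **Fam** the family in the coordinates `xx w`. Proof. `dt (toPl (cc i)) w = xx w i`. The `phi` part does
not depend on `N`, and `N * xx w i` is a common summand of all `dt (toPl (pnt N i k)) w`. The map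
`k ↦ pnt N i k` is injective: for `w` with `xx w (i + 1) = 1`, `xx w (i + 2) = 0` the value `dt _ w` is
`-N - 2 k`. -/
def StmtFam : Prop :=
  (∀ (N : ℤ) (i : Fin 3) (k : ℕ) (w : Pl),
    dt (toPl (pnt N i k)) w = N * xx w i + phi i k (xx w)) ∧
  (∀ (N : ℤ) (i : Fin 3), Function.Injective (pnt N i)) ∧
  (∀ (v : Fin 3 → ℕ) (N : ℤ) (i : Fin 3), (Vf v N i).card = v i ∧ (AA v N i).card = v i) ∧
  (∀ (v : Fin 3 → ℕ) (N : ℤ) (i : Fin 3) (p : Pl), p ∈ AA v N i ↔
    ∃ k, k < v i ∧ toPl (pnt N i k) = p) ∧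
  (∀ (v : Fin 3 → ℕ) (N : ℤ) (i : Fin 3) (w : Pl), v i ≠ 0 →
    psi (AA v N i) w = N * xx w i + psi (AA v 0 i) w) ∧
  (∀ (v : Fin 3 → ℕ) (N : ℤ) (i : Fin 3) (w : Pl) (k : ℕ), w ∈ NC (AA v N i) (toPl (pnt N i k)) ↔
    ∀ l, l < v i → l ≠ k → phi i k (xx w) < phi i l (xx w))

/-- **Alg** (uses `Fam`) properties of the family for the algebraic half. Proof. (1) `k` is the unique
minimum at the `w` with `xx w (i + 2) = 1`, `xx w (i + 1) = k + 3 / 2`: `phi i l = (l - k)^2 - k^2`.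
(2) `cr (toPl (pnt N i k)) (toPl (pnt N (i + 1) m)) = N^2 + 2 m N + 4 k m + 2 k m (m + 3) - k (k + 3) N +
k (k + 3) m (m + 3)`, positive if `N > k (k + 3)`. (3) let `w` be in both corner loci, `j = i + 1` or
`j = i + 2`, i.e. `i = j + 1`; say `j = i + 1`. By `CL_iff` there are `k ≠ k'` with equal
`phi`, so `2 x_(i+1) = (k + k' + 3) x_(i+2)`, and `m ≠ m'` with `2 x_(i+2) = (m + m' + 3) x_i`
(`i + 1 + 2 = i`), and `x_0 + x_1 + x_2 = 0`; so all three are `0`. -/
def StmtAlg : Prop := ∀ v : Fin 3 → ℕ, (∀ i, v i ≠ 0) →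
  (∀ (N : ℤ) (i : Fin 3), ∀ p ∈ AA v N i, (NC (AA v N i) p).Nonempty) ∧
  (∀ᶠ N : ℕ in atTop, ∀ i : Fin 3, ∀ p ∈ AA v N i, ∀ q ∈ AA v N (i + 1), 0 < cr p q) ∧
  (∀ (N : ℤ) (i j : Fin 3), i ≠ j → ∀ w, w ∈ CL (AA v N i) → w ∈ CL (AA v N j) → w = 0)

/-- **Lim** (uses `Homeo`, `Lip`, `Fam`) types for large `N`. Proof. For fixed `i` let
`L w = (xx w (i + 1), xx w (i + 2))`, a linear isomorphism, and
`G w = (psi (AA v 0 (i + 1)) w, psi (AA v 0 (i + 2)) w)`, a Lipschitz map with `G 0 = 0` (`psi_zero`); by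
`Fam` `(psi (AA v N (i + 1)) w, psi (AA v N (i + 2)) w) = N • L w + G w`. (1) is `Homeo` (1). For (2), (3) let
`w N` be the preimage of `N • (z (i + 1), z (i + 2))`; it converges to `w₀` with
`xx w₀ (i + 1) = z (i + 1)`, `xx w₀ (i + 2) = z (i + 2)`, `xx w₀ i = - z (i + 1) - z (i + 2)`.
`psi (AA v N i) (w N) = N (xx (w N) i + psi (AA v 0 i) (w N) / N)` and the bracket converges to
`xx w₀ i`, which is less (greater) than `z i`. The condition on `phi` is open in `w` and holds at `w₀`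
(`phi i k (xx w₀) = phi i k z`). -/
def StmtLim : Prop := ∀ v : Fin 3 → ℕ, (∀ i, v i ≠ 0) → ∀ i : Fin 3,
  (∀ᶠ N : ℕ in atTop, Hm (AA v N) i) ∧
  (∀ (z : Sp) (k : ℕ), 0 < z 0 + z 1 + z 2 → k < v i →
    (∀ l, l < v i → l ≠ k → phi i k z < phi i l z) →
      ∀ᶠ N : ℕ in atTop, Abv (AA v N) i (toPl (pnt N i k)) ((N : ℝ) • z)) ∧
  (∀ z : Sp, z 0 + z 1 + z 2 < 0 → ∀ᶠ N : ℕ in atTop, Blw (AA v N) i ((N : ℝ) • z))

/-- **Opn** the sets of points of a given type are open. Proof. With the homeomorphism `H` the set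
`{z | Abv A i p z}` is `{z | psi (A i) (H.symm (z (i + 1), z (i + 2))) < z i ∧
H.symm (z (i + 1), z (i + 2)) ∈ NC (A i) p}`. -/
def StmtOpn : Prop := ∀ (A : Fin 3 → Finset Pl) (i : Fin 3), (A i).Nonempty → Hm A i →
  (∀ p, IsOpen {z | Abv A i p z}) ∧ IsOpen {z | Blw A i z}

/-- **Sep** the surface separates points of different types. Proof. `γ t = z + t (z' - z)`, `t ∈ [0, 1]`,
is in `C`, so `γ t ∉ Gam A`. (1), (2): `W t = H.symm (γ t (i + 1), γ t (i + 2))`, a continuous path with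
`psi (A (i + 1)) (W t) = γ t (i + 1)`, the same for `i + 2`; `W 0`, `W 1` are the points of `Abv`, `Blw`.
`F t = γ t i - psi (A i) (W t)` has no zero in `[0, 1]`: otherwise `Wit A (γ t) (W t)` (all three are
equalities), and if `W t = 0` then `γ t (i + 1) = psi 0 = 0`, so `γ t ∉ oct`; so `γ t ∈ Gam A`.
`F 0 > 0`, so `F > 0` on `[0, 1]`, in particular `F 1 > 0`: not `Blw`. And `W t ∉ CL (A i)`: otherwise
again `Wit A (γ t) (W t)` and `γ t ∉ oct` if `W t = 0`. So the connected set `W '' [0, 1]` is contained in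
the union of the disjoint open sets `NC (A i) p` (`mem_CL_or`), hence in one of them. (3) there is `t`
with `γ t l = 0`, and `γ t (l + 1), γ t (l + 2) > 0`; then `Wit A (γ t) 0` (`psi 0 = 0`, and
`0 ∈ CL (A j)` if `A j` has at least two elements), `γ t ∉ oct`, so `γ t ∈ Gam A`. -/
def StmtSep : Prop := ∀ A : Fin 3 → Finset Pl, (∀ i, (A i).Nonempty) → ∀ C : Set Sp, Convex ℝ C →
  Disjoint C (Gam A) → ∀ z ∈ C, ∀ z' ∈ C,
  (∀ i, Hm A i → ∀ p ∈ A i, Abv A i p z → ¬ Blw A i z') ∧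
  (∀ i, Hm A i → ∀ p ∈ A i, ∀ p' ∈ A i, Abv A i p z → Abv A i p' z' → p = p') ∧
  (∀ l : Fin 3, (A (l + 1)).card ≠ 1 → (A (l + 2)).card ≠ 1 → (∀ i, 0 < z i) → z' l < 0 →
    0 < z' (l + 1) → 0 < z' (l + 2) → False)

/-- **Regions** counting vertices by separated open sets. Proof. For `a ∈ M` let
`C a = {z | ∀ b ∈ M, b ≠ a → a ⬝ᵥ z < b ⬝ᵥ z}`, a convex set disjoint from `trop M`. A point `z ∉ trop M` is in
some `C a`, `a ∈ M` (a minimizer; it is the only one). The set `trop M` contains no nonempty open set: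
it is contained in the finite union of the hyperplanes `(a - b) ⬝ᵥ z = 0`, `a ≠ b` in `M`, whose
complements are open and dense (`dense_biInter_of_isOpen` or finite induction; or: the hyperplanes are
proper submodules, `Submodule` with nonempty interior is `⊤`). So for `x ∈ I` choose
`z x ∈ U x` not in `trop M` and `a x ∈ M` with `z x ∈ C (a x)`. By hypothesis (`C = C (a x)`) `a` is
injective on `I`. Every `a x` is an extreme point of the convex hull of `M`: `b ↦ b ⬝ᵥ z x` attains its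
minimum over `M` only at `a x`, so also over the hull (if `a x` is in the open segment of two points of
the hull then both have the minimal value, and a convex combination of points of `M` with the minimal
value is `a x`). The set of extreme points is finite (`extremePoints_convexHull_subset`). So
`I.card ≤ nv M`. -/
def StmtRegions : Prop := ∀ M : Finset Sp, M.Nonempty → ∀ (κ : Type) (I : Finset κ)
  (U : κ → Set Sp), (∀ x ∈ I, IsOpen (U x) ∧ (U x).Nonempty) →
  (∀ x ∈ I, ∀ y ∈ I, x ≠ y → ∀ C : Set Sp, Convex ℝ C → Disjoint C (trop M) →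
    (C ∩ U x).Nonempty → (C ∩ U y).Nonempty → False) → I.card ≤ nv M

/-- **Pts** (uses `Lim`, `Opn`, `Fam`) the sets of the labels are open and nonempty. Proof. Finitely many
labels (`Finset.eventually_all`), for each of them finitely many conditions; open by `Opn`. The points are
`N • z`, `N > 0`, with `z` as follows. `none`: `z = (-1, -1, -1)`. Inside, type `t`, `t l = 0`: let
`a = t (l + 1)`, `b = t (l + 2)`, `z (l + 1) = 1`, `z l = b + 3 / 2`, `z (l + 2) = (a + 3/2) (b + 3/2)`.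
Then `phi l k z = -2 k + k (k + 3) (a + 3/2) (b + 3/2)` is positive for `k ≥ 1` and `0` for `k = 0`;
`phi (l + 1) k z = z l ((k - a)^2 - a^2)`; `phi (l + 2) k z = (k - b)^2 - b^2`. Side `l`, number `m`:
`z (l + 2) = 1`, `z (l + 1) = m + 3 / 2`, `z l = -1`: `phi l k z = (k - m)^2 - m^2`;
`phi (l + 1) k z = -2 k - k (k + 3)` is strictly decreasing in `k`, the unique minimum is at
`k = v (l + 1) - 1`; `phi (l + 2) k z = 2 k + k (k + 3) (m + 3 / 2)`, the unique minimum is at `k = 0`. The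
sum of the coordinates is positive. (Prove it for every `l` by `fin_cases l`, or with the equations
`l + 1 + 1 = l + 2`, `l + 1 + 2 = l`, `l + 2 + 1 = l`, `l + 2 + 2 = l + 1`.) -/
def StmtPts : Prop := ∀ v : Fin 3 → ℕ, (∀ i, v i ≠ 0) →
  ∀ᶠ N : ℕ in atTop, ∀ x ∈ labels v, IsOpen (UU v N x) ∧ (UU v N x).Nonempty

/-- **Card** the number of labels. Proof. `card_insertNone`, `card_disjSum`. `inner v` is
`piFinset (range (v i)) \ piFinset (Ico 1 (v i))`, the number is `∏ v i - ∏ (v i - 1)`. `side v`: sum over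
`x.1 = 0, 1, 2` (for instance `card_filter`, `sum_product`, `Fin.sum_univ_three`): for fixed `l` the number
of `m < v l` if `v (l + 1), v (l + 2) ≠ 1`, otherwise `0`. With `v i = a i + 1` and the cases `a i = 0` or not,
the total is `VV v`. -/
def StmtCard : Prop := ∀ v : Fin 3 → ℕ, (∀ i, v i ≠ 0) → (labels v).card = VV v

/-- **Dist** (uses `Sep`, `Fam`) labels are separated. Proof. Let `x ≠ y` be labels, `z ∈ C ∩ U x`,
`z' ∈ C ∩ U y`. `none` and `some`: `Sep` (1). Both `some`, different types: `Sep` (2) with an `i` where the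
types differ, and injectivity of `pnt`. The same type `t`: one inside and one on the side `l`: `Sep` (3),
`card = v`. Both on sides, `l`, `l'` with `tt v l m = tt v l' m'`: if `l = l'` then `m = m'` (value at `l`);
if `l' = l + 1`: the value at `l + 2` is `0` for the first and `v (l + 2) - 1 ≠ 0` for the second (both
labels are in `side v`, so `v (l + 2) ≠ 1`); `l' = l + 2`: by symmetry. -/
def StmtDist : Prop := ∀ v : Fin 3 → ℕ, (∀ i, v i ≠ 0) → ∀ N : ℕ, (∀ i, Hm (AA v N) i) →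
  ∀ C : Set Sp, Convex ℝ C → Disjoint C (Gam (AA v N)) → ∀ x ∈ labels v, ∀ y ∈ labels v, x ≠ y →
    (C ∩ UU v N x).Nonempty → (C ∩ UU v N y).Nonempty → False

/-- **Low** (uses `Fam`, `Alg`, `Lim`, `Regions`, `Pts`, `Card`, `Dist`) the lower bound, geometric half.
Proof. `V = Vf v N` with a large `N`. `M` is nonempty, since `Gam A` is nonempty (`0 ∈ Gam A`, the witness
is `0`) and `trop ∅ = ∅`. -/
def StmtLow : Prop := ∀ v : Fin 3 → ℕ, (∀ i, v i ≠ 0) → ∃ V : Fin 3 → Finset (ℤ × ℤ),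
  (∀ i, (V i).card = v i) ∧
  (∀ i, ∀ p ∈ im V i, (NC (im V i) p).Nonempty) ∧
  (∀ i, ∀ p ∈ im V i, ∀ q ∈ im V (i + 1), 0 < cr p q) ∧
  (∀ i j, i ≠ j → ∀ w, w ∈ CL (im V i) → w ∈ CL (im V j) → w = 0) ∧
  ∀ M : Finset Sp, Gam (im V) ⊆ trop M → VV v ≤ nv M

end Pool.Agent.Lib.MP_4e7804_co.N3.Low
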