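import Pool.Agent.Lib.MP_4e7804_co.N3.Low.Spec

/-!
# n = 3, lower bound: properties of the family for the algebraic half
-/

set_option autoImplicit false

open Filter Topology

namespace Pool.Agent.Lib.MP_4e7804_co.N3.Low.AlgN

theorem exists_w (i : Fin 3) (s : ℝ) : ∃ w : Pl, xx w (i + 1) = s ∧ xx w (i + 2) = 1 := by
  fin_cases i
  · exact ⟨(-1 - s, s), by simp [xx], by simp [xx]⟩
  · exact ⟨(1, -1 - s), by simp [xx], by simp [xx]⟩
  · exact ⟨(s, 1), by simp [xx], by simp [xx]⟩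

theorem fin_or : ∀ i j : Fin 3, j = i ∨ j = i + 1 ∨ j = i + 2 := by decide

theorem fin_ne : ∀ i j : Fin 3, i ≠ j → j = i + 1 ∨ i = j + 1 := by decide

theorem fin_a : ∀ i : Fin 3, i + 1 + 1 = i + 2 := by decide

theorem fin_b : ∀ i : Fin 3, i + 1 + 2 = i := by decide

theorem xx_sum (i : Fin 3) (w : Pl) : xx w i + xx w (i + 1) + xx w (i + 2) = 0 := by
  fin_cases i
  · simp [xx]
  · simp [xx]
  · simp [xx]
    ring

theorem xx_zero (i : Fin 3) (w : Pl) (h0 : xx w i = 0) (h1 : xx w (i + 1) = 0)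
    (h2 : xx w (i + 2) = 0) : w = 0 := by
  have h : ∀ j, xx w j = 0 := by
    intro j
    rcases fin_or i j with rfl | rfl | rfl
    · exact h0
    · exact h1
    · exact h2
  have e0 := h 0
  have e1 := h 1
  simp only [xx, Matrix.cons_val_zero, Matrix.cons_val_one] at e0 e1
  exact Prod.ext e0 e1

theorem cr_pnt (N : ℤ) (i : Fin 3) (k m : ℕ) :
    cr (toPl (pnt N i k)) (toPl (pnt N (i + 1) m)) =
      (N : ℝ) * (N - k * (k + 3)) + 2 * m * N + 4 * k * m + 2 * k * m * (m + 3) +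
        k * (k + 3) * m * (m + 3) := by
  fin_cases i
  · simp [cr, toPl, pnt, cc]
    ring
  · simp [cr, toPl, pnt, cc]
    ring
  · simp [cr, toPl, pnt, cc]
    ring

theorem rel {v : Fin 3 → ℕ} (hF : StmtFam) (hv : ∀ i, v i ≠ 0) {N : ℤ} {i : Fin 3} {w : Pl}
    (h : w ∈ CL (AA v N i)) : ∃ s : ℝ, 0 < s ∧ 2 * xx w (i + 1) = s * xx w (i + 2) := by
  obtain ⟨hd, hinj, hcard, hmem, hpsi, hNC⟩ := hF
  have hne : (AA v N i).Nonempty := by
    rw [← Finset.card_pos, (hcard v N i).2]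
    exact Nat.pos_of_ne_zero (hv i)
  obtain ⟨p, hp, q, hq, hpq, h1, h2⟩ := (CL_iff hne).1 h
  obtain ⟨k, _, rfl⟩ := (hmem v N i p).1 hp
  obtain ⟨l, _, rfl⟩ := (hmem v N i q).1 hq
  have hkl : k ≠ l := by
    rintro rfl
    exact hpq rfl
  rw [hd] at h1 h2
  have h3 : phi i k (xx w) = phi i l (xx w) := by linarith
  unfold phi at h3
  refine ⟨(k : ℝ) + l + 3, by positivity, ?_⟩
  have h4 : ((k : ℝ) - l) * (2 * xx w (i + 1) - ((k : ℝ) + l + 3) * xx w (i + 2)) = 0 := by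
    linear_combination -h3
  have h5 : (k : ℝ) - l ≠ 0 := by
    intro h
    exact hkl (by exact_mod_cast sub_eq_zero.1 h)
  have h6 := (mul_eq_zero.1 h4).resolve_left h5
  linarith

theorem both {v : Fin 3 → ℕ} (hF : StmtFam) (hv : ∀ i, v i ≠ 0) {N : ℤ} {i : Fin 3} {w : Pl}
    (h : w ∈ CL (AA v N i)) (h' : w ∈ CL (AA v N (i + 1))) : w = 0 := by
  obtain ⟨s, hs, e1⟩ := rel hF hv h
  obtain ⟨s', hs', e2⟩ := rel hF hv h'
  rw [fin_a, fin_b] at e2
  have e3 := xx_sum i w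
  have e4 : xx w i * (1 + s' / 2 + s * s' / 4) = 0 := by
    linear_combination e3 - e1 / 2 - (1 / 2 + s / 4) * e2
  have h5 : 0 < 1 + s' / 2 + s * s' / 4 := by positivity
  have e5 := (mul_eq_zero.1 e4).resolve_right h5.ne'
  rw [e5, mul_zero] at e2
  have e6 : xx w (i + 2) = 0 := by linarith
  rw [e6, mul_zero] at e1
  have e7 : xx w (i + 1) = 0 := by linarith
  exact xx_zero i w e5 e7 e6

end Pool.Agent.Lib.MP_4e7804_co.N3.Low.AlgN

namespace Pool.Agent.Lib.MP_4e7804_co.N3.Low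

open AlgN

theorem tAlg (hF : StmtFam) : StmtAlg := by
  intro v hv
  have hF' := hF
  obtain ⟨hd, hinj, hcard, hmem, hpsi, hNC⟩ := hF
  refine ⟨?_, ?_, ?_⟩
  · intro N i p hp
    obtain ⟨k, hk, rfl⟩ := (hmem v N i p).1 hp
    obtain ⟨w, hw1, hw2⟩ := exists_w i ((k : ℝ) + 3 / 2)
    refine ⟨w, (hNC v N i w k).2 ?_⟩
    intro l hl hlk
    unfold phi
    rw [hw1, hw2]
    have h1 : (l : ℝ) - k ≠ 0 := by
      intro h
      exact hlk (by exact_mod_cast sub_eq_zero.1 h)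
    have h2 : 0 < ((l : ℝ) - k) ^ 2 := by positivity
    nlinarith
  · have hV : ∀ i, v i ≤ v 0 + v 1 + v 2 := by
      intro i
      fin_cases i
      · simp only [Fin.zero_eta]
        omega
      · simp only [Fin.mk_one]
        omega
      · simp only [Fin.reduceFinMk]
        omega
    set M : ℕ := v 0 + v 1 + v 2 with hM
    filter_upwards [Filter.eventually_gt_atTop (M * (M + 3))] with N hN i p hp q hq
    obtain ⟨k, hk, rfl⟩ := (hmem v N i p).1 hp
    obtain ⟨m, hm, rfl⟩ := (hmem v N (i + 1) q).1 hq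
    rw [cr_pnt]
    have h1 : k * (k + 3) < N := by
      have h2 : k ≤ M := hk.le.trans (hV i)
      have h3 : k * (k + 3) ≤ M * (M + 3) := Nat.mul_le_mul h2 (by omega)
      omega
    have h2 : (k : ℝ) * (k + 3) < N := by exact_mod_cast h1
    have h3 : (0 : ℝ) < N := lt_of_le_of_lt (by positivity) h2
    have h4 : 0 < (N : ℝ) * (N - k * (k + 3)) := mul_pos h3 (by linarith)
    have h5 : (((N : ℕ) : ℤ) : ℝ) = (N : ℝ) := by push_cast; rfl
    rw [h5]
    have h6 : 0 ≤ 2 * (m : ℝ) * N + 4 * k * m + 2 * k * m * (m + 3) + k * (k + 3) * m * (m + 3) := by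
      positivity
    linarith
  · intro N i j hij w hi hj
    rcases fin_ne i j hij with rfl | rfl
    · exact both hF' hv hi hj
    · exact both hF' hv hj hi

end Pool.Agent.Lib.MP_4e7804_co.N3.Low
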