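import Pool.Agent.Lib.MP_4e7804_co.N3.Base

/-!
# n = 3, lower bound: definitions
-/

set_option autoImplicit false

namespace Pool.Agent.Lib.MP_4e7804_co.N3.Low

/-- the integral point as a point of the plane -/
def toPl : ℤ × ℤ ↪ Pl := ⟨fun p => ((p.1 : ℝ), (p.2 : ℝ)), by
  rintro ⟨a, b⟩ ⟨c, d⟩ h
  simp only [Prod.mk.injEq, Int.cast_inj] at h
  exact Prod.ext h.1 h.2⟩

/-- the family of finite subsets of the plane of a family of finite sets of integral points -/
def im (V : Fin 3 → Finset (ℤ × ℤ)) : Fin 3 → Finset Pl := fun i => (V i).map toPl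

/-- the vectors `c_0, c_1, c_2` -/
def cc : Fin 3 → ℤ × ℤ := ![(1, 0), (0, 1), (-1, -1)]

/-- the point `N c_i - 2 k c_(i+1) + k (k + 3) c_(i+2)` -/
def pnt (N : ℤ) (i : Fin 3) (k : ℕ) : ℤ × ℤ :=
  (N * (cc i).1 - 2 * k * (cc (i + 1)).1 + k * (k + 3) * (cc (i + 2)).1,
    N * (cc i).2 - 2 * k * (cc (i + 1)).2 + k * (k + 3) * (cc (i + 2)).2)

/-- the family -/
def Vf (v : Fin 3 → ℕ) (N : ℤ) : Fin 3 → Finset (ℤ × ℤ) :=
  fun i => (Finset.range (v i)).image (pnt N i)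

/-- the family in the real plane -/
def AA (v : Fin 3 → ℕ) (N : ℤ) : Fin 3 → Finset Pl := im (Vf v N)

/-- the coordinates `c_i · w` -/
def xx (w : Pl) : Sp := ![w.1, w.2, -w.1 - w.2]

/-- the linear form of the point number `k` of the family `i`, without the leading term -/
def phi (i : Fin 3) (k : ℕ) (z : Sp) : ℝ := -2 * k * z (i + 1) + k * (k + 3) * z (i + 2)

/-- `z` is above the surface, of type `p` for the index `i` -/
def Abv (A : Fin 3 → Finset Pl) (i : Fin 3) (p : Pl) (z : Sp) : Prop :=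
  ∃ w, psi (A (i + 1)) w = z (i + 1) ∧ psi (A (i + 2)) w = z (i + 2) ∧ psi (A i) w < z i ∧
    w ∈ NC (A i) p

/-- `z` is below the surface -/
def Blw (A : Fin 3 → Finset Pl) (i : Fin 3) (z : Sp) : Prop :=
  ∃ w, psi (A (i + 1)) w = z (i + 1) ∧ psi (A (i + 2)) w = z (i + 2) ∧ z i < psi (A i) w

/-- the map `(psi_(i+1), psi_(i+2))` is a homeomorphism -/
def Hm (A : Fin 3 → Finset Pl) (i : Fin 3) : Prop :=
  ∃ H : Pl ≃ₜ Pl, ∀ w, H w = (psi (A (i + 1)) w, psi (A (i + 2)) w)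

/-- the types on the side `l` -/
def tt (v : Fin 3 → ℕ) (l : Fin 3) (m : ℕ) : Fin 3 → ℕ :=
  fun i => if i = l then m else if i = l + 1 then v i - 1 else 0

/-- the labels of the points -/
abbrev Lab : Type := Option ((Fin 3 → ℕ) ⊕ (Fin 3 × ℕ))

open Classical in
/-- the types inside the octant: one of the coordinates is `0` -/
noncomputable def inner (v : Fin 3 → ℕ) : Finset (Fin 3 → ℕ) :=
  (Fintype.piFinset fun i => Finset.range (v i)).filter fun t => ∃ i, t i = 0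

open Classical in
/-- the points on the sides -/
noncomputable def side (v : Fin 3 → ℕ) : Finset (Fin 3 × ℕ) :=
  (Finset.univ ×ˢ Finset.range (v 0 + v 1 + v 2)).filter fun x =>
    x.2 < v x.1 ∧ v (x.1 + 1) ≠ 1 ∧ v (x.1 + 2) ≠ 1

/-- the list of all labels -/
noncomputable def labels (v : Fin 3 → ℕ) : Finset Lab :=
  Finset.insertNone ((inner v).disjSum (side v))

/-- the open set of a label -/
def UU (v : Fin 3 → ℕ) (N : ℤ) : Lab → Set Sp
  | none => {z | Blw (AA v N) 0 z}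
  | some (Sum.inl t) => {z | (∀ i, Abv (AA v N) i (toPl (pnt N i (t i))) z) ∧ ∀ i, 0 < z i}
  | some (Sum.inr x) => {z | (∀ i, Abv (AA v N) i (toPl (pnt N i (tt v x.1 x.2 i))) z) ∧
      z x.1 < 0 ∧ 0 < z (x.1 + 1) ∧ 0 < z (x.1 + 2)}

end Pool.Agent.Lib.MP_4e7804_co.N3.Low
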