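import Pool.Agent.Lib.MP_4e7804_co.N3.Low.Spec

/-!
# n = 3, lower bound: counting vertices by separated open sets
-/

set_option autoImplicit false

namespace Pool.Agent.Lib.MP_4e7804_co.N3.Low

namespace RegionsN

/-- the open region of `a` -/
def Ca (M : Finset Sp) (a : Sp) : Set Sp := {z | ∀ b ∈ M, b ≠ a → a ⬝ᵥ z < b ⬝ᵥ z}

theorem Ca_convex (M : Finset Sp) (a : Sp) : Convex ℝ (Ca M a) := by
  intro x hx y hy α β hα hβ hαβ b hb hba
  have h1 := hx b hb hba
  have h2 := hy b hb hba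
  simp only [dotProduct_add, dotProduct_smul, smul_eq_mul]
  rcases hα.lt_or_eq with h | h
  · have h3 := mul_lt_mul_of_pos_left h1 h
    have h4 := mul_le_mul_of_nonneg_left h2.le hβ
    linarith
  · have hb1 : β = 1 := by linarith
    subst h
    rw [hb1]
    linarith

theorem Ca_disjoint (M : Finset Sp) (a : Sp) (ha : a ∈ M) : Disjoint (Ca M a) (trop M) := by
  rw [Set.disjoint_left]
  rintro z hz ⟨p, hp, q, hq, hpq, hp', hq'⟩
  have h1 : p = a := by
    by_contra h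
    exact absurd (hz p hp h) (not_lt.2 (hp' a ha))
  have h2 : q = a := by
    by_contra h
    exact absurd (hz q hq h) (not_lt.2 (hq' a ha))
  exact hpq (h1.trans h2.symm)

theorem exists_Ca (M : Finset Sp) (hM : M.Nonempty) (z : Sp) (hz : z ∉ trop M) :
    ∃ a ∈ M, z ∈ Ca M a := by
  obtain ⟨a, ha, hmin⟩ := M.exists_min_image (fun a => a ⬝ᵥ z) hM
  refine ⟨a, ha, fun b hb hba => ?_⟩
  by_contra h
  rw [not_lt] at h
  exact hz ⟨a, ha, b, hb, Ne.symm hba, hmin, fun c hc => h.trans (hmin c hc)⟩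

theorem exists_one (p : Sp) (hp : p ≠ 0) (U : Set Sp) (hU : IsOpen U) (hne : U.Nonempty) :
    ∃ z ∈ U, p ⬝ᵥ z ≠ 0 := by
  obtain ⟨z, hz⟩ := hne
  by_cases h0 : p ⬝ᵥ z = 0
  · have hc : Continuous fun ε : ℝ => z + ε • p := by fun_prop
    have ho := hU.preimage hc
    have h1 : (0 : ℝ) ∈ (fun ε : ℝ => z + ε • p) ⁻¹' U := by
      simpa using hz
    obtain ⟨r, hr, hball⟩ := Metric.isOpen_iff.1 ho 0 h1
    refine ⟨z + (r / 2) • p, hball ?_, ?_⟩
    · rw [Metric.mem_ball, dist_zero_right, Real.norm_eq_abs, abs_of_pos (by linarith)]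
      linarith
    · rw [dotProduct_add, h0, zero_add, dotProduct_smul, smul_eq_mul]
      refine mul_ne_zero (by linarith) ?_
      intro h
      exact hp (dotProduct_self_eq_zero.1 h)
  · exact ⟨z, hz, h0⟩

theorem exists_fin (P : Finset Sp) (hP : ∀ p ∈ P, p ≠ 0) (U : Set Sp) (hU : IsOpen U)
    (hne : U.Nonempty) : ∃ z ∈ U, ∀ p ∈ P, p ⬝ᵥ z ≠ 0 := by
  classical
  induction P using Finset.induction_on generalizing U with
  | empty =>
    obtain ⟨z, hz⟩ := hne
    exact ⟨z, hz, fun p hp => absurd hp (Finset.notMem_empty p)⟩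
  | insert p P _ ih =>
    have ho : IsOpen (U ∩ {z : Sp | p ⬝ᵥ z ≠ 0}) := by
      refine hU.inter ?_
      have hc : Continuous fun z : Sp => p ⬝ᵥ z := by
        unfold dotProduct
        fun_prop
      exact isOpen_ne_fun hc continuous_const
    obtain ⟨z, hz, hz0⟩ := exists_one p (hP p (Finset.mem_insert_self _ _)) U hU hne
    obtain ⟨y, hy, hy'⟩ := ih (fun p' hp' => hP p' (Finset.mem_insert_of_mem hp')) _ ho
      ⟨z, hz, hz0⟩
    refine ⟨y, hy.1, fun p' hp' => ?_⟩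
    rcases Finset.mem_insert.1 hp' with rfl | h
    · exact hy.2
    · exact hy' p' h

theorem exists_notMem (M : Finset Sp) (U : Set Sp) (hU : IsOpen U) (hne : U.Nonempty) :
    ∃ z ∈ U, z ∉ trop M := by
  classical
  obtain ⟨z, hz, hz'⟩ := exists_fin
    (((M ×ˢ M).filter fun x => x.1 ≠ x.2).image fun x => x.1 - x.2) (by
      intro p hp
      obtain ⟨x, hx, rfl⟩ := Finset.mem_image.1 hp
      exact sub_ne_zero.2 (Finset.mem_filter.1 hx).2) U hU hne
  refine ⟨z, hz, ?_⟩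
  rintro ⟨p, hp, q, hq, hpq, hp', hq'⟩
  refine hz' (p - q) (Finset.mem_image.2 ⟨(p, q), Finset.mem_filter.2
    ⟨Finset.mem_product.2 ⟨hp, hq⟩, hpq⟩, rfl⟩) ?_
  rw [sub_dotProduct, sub_eq_zero]
  exact le_antisymm (hp' q hq) (hq' p hp)

theorem half_convex (a z : Sp) : Convex ℝ {x : Sp | a ⬝ᵥ z < x ⬝ᵥ z ∨ x = a} := by
  intro x hx y hy α β hα hβ hαβ
  have hxc : a ⬝ᵥ z ≤ x ⬝ᵥ z := by
    rcases hx with hx | hx
    · exact hx.le
    · rw [hx]
  have hyc : a ⬝ᵥ z ≤ y ⬝ᵥ z := by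
    rcases hy with hy | hy
    · exact hy.le
    · rw [hy]
  rcases hα.eq_or_lt with h0 | h0
  · subst h0
    have : β = 1 := by linarith
    subst this
    simpa using hy
  rcases hβ.eq_or_lt with h1 | h1
  · subst h1
    have : α = 1 := by linarith
    subst this
    simpa using hx
  have e : a ⬝ᵥ z = α * a ⬝ᵥ z + β * a ⬝ᵥ z := by rw [← add_mul, hαβ, one_mul]
  rcases hx with hx | hx
  · left
    rw [add_dotProduct, smul_dotProduct, smul_dotProduct, smul_eq_mul, smul_eq_mul]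
    linarith [mul_lt_mul_of_pos_left hx h0, mul_le_mul_of_nonneg_left hyc hβ]
  · rcases hy with hy | hy
    · left
      rw [add_dotProduct, smul_dotProduct, smul_dotProduct, smul_eq_mul, smul_eq_mul]
      linarith [mul_lt_mul_of_pos_left hy h1, mul_le_mul_of_nonneg_left hxc hα]
    · right
      rw [hx, hy, ← add_smul, hαβ, one_smul]

theorem extreme (M : Finset Sp) (a : Sp) (ha : a ∈ M) (z : Sp) (hz : z ∈ Ca M a) :
    a ∈ Set.extremePoints ℝ (convexHull ℝ (M : Set Sp)) := by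
  have hsub : convexHull ℝ (M : Set Sp) ⊆ {x : Sp | a ⬝ᵥ z < x ⬝ᵥ z ∨ x = a} := by
    refine convexHull_min ?_ (half_convex a z)
    intro b hb
    by_cases h : b = a
    · exact Or.inr h
    · exact Or.inl (hz b (Finset.mem_coe.1 hb) h)
  rw [mem_extremePoints]
  refine ⟨subset_convexHull ℝ _ (Finset.mem_coe.2 ha), ?_⟩
  rintro x hx y hy ⟨α, β, hα, hβ, hαβ, hxy⟩
  have e : a ⬝ᵥ z = α * x ⬝ᵥ z + β * y ⬝ᵥ z := by
    conv_lhs => rw [← hxy]
    rw [add_dotProduct, smul_dotProduct, smul_dotProduct, smul_eq_mul, smul_eq_mul]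
  have e' : a ⬝ᵥ z = α * a ⬝ᵥ z + β * a ⬝ᵥ z := by rw [← add_mul, hαβ, one_mul]
  rcases hsub hx with h1 | h1
  · exfalso
    rcases hsub hy with h2 | h2
    · linarith [mul_lt_mul_of_pos_left h1 hα, mul_lt_mul_of_pos_left h2 hβ]
    · rw [h2] at e
      linarith [mul_lt_mul_of_pos_left h1 hα]
  · rcases hsub hy with h2 | h2
    · exfalso
      rw [h1] at e
      linarith [mul_lt_mul_of_pos_left h2 hβ]
    · exact ⟨h1, h2⟩

end RegionsN

open RegionsN in
theorem tRegions : StmtRegions := by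
  classical
  intro M hM κ I U hU hsep
  have hex : ∀ x, x ∈ I → ∃ z : Sp, ∃ a : Sp, z ∈ U x ∧ a ∈ M ∧ z ∈ Ca M a := by
    intro x hx
    obtain ⟨z, hz, hz'⟩ := exists_notMem M (U x) (hU x hx).1 (hU x hx).2
    obtain ⟨a, ha, ha'⟩ := exists_Ca M hM z hz'
    exact ⟨z, a, hz, ha, ha'⟩
  choose! z a hz ha hza using hex
  have hinj : Set.InjOn a (I : Set κ) := by
    intro x hx y hy hxy
    by_contra hne
    have hx' := Finset.mem_coe.1 hx
    have hy' := Finset.mem_coe.1 hy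
    refine hsep x hx' y hy' hne (Ca M (a x)) (Ca_convex M _) (Ca_disjoint M _ (ha x hx'))
      ⟨z x, hza x hx', hz x hx'⟩ ⟨z y, ?_, hz y hy'⟩
    rw [hxy]
    exact hza y hy'
  unfold nv
  rw [← Finset.card_image_of_injOn hinj, ← Set.ncard_coe_finset]
  refine Set.ncard_le_ncard ?_ ?_
  · intro b hb
    obtain ⟨x, hx, rfl⟩ := Finset.mem_image.1 (Finset.mem_coe.1 hb)
    exact extreme M (a x) (ha x hx) (z x) (hza x hx)
  · exact M.finite_toSet.subset extremePoints_convexHull_subset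

end Pool.Agent.Lib.MP_4e7804_co.N3.Low
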